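import Mathlib

set_option autoImplicit false

namespace Pool.Agent.Lib.MP_688fd0_co.SQ5.H41

/-! ### Completion of a primitive vector -/

/-- A primitive vector of a lattice of finite index is part of a basis. -/
theorem completion (L : AddSubgroup (ℤ × ℤ)) (hL : L.index ≠ 0) (i0 j0 : ℤ) (h0 : (i0, j0) ∈ L)
    (hne : ¬ (i0 = 0 ∧ j0 = 0))
    (hprim : ∀ i j : ℤ, (i, j) ∈ L → i0 * j = j0 * i → ∃ q : ℤ, i = q * i0 ∧ j = q * j0) :
    ∃ i1 j1 : ℤ, (i1, j1) ∈ L ∧ j0 * i1 - i0 * j1 = L.index ∧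
      ∀ i j : ℤ, (i, j) ∈ L → ∃ x y : ℤ, i = x * i0 + y * i1 ∧ j = x * j0 + y * j1 := by
  classical
  -- the values of the determinant on the lattice
  let φ : (ℤ × ℤ) →+ ℤ :=
    { toFun := fun v => j0 * v.1 - i0 * v.2
      map_zero' := by simp
      map_add' := fun v w => by simp only [Prod.fst_add, Prod.snd_add]; ring }
  have hφ : ∀ v, φ v = j0 * v.1 - i0 * v.2 := fun v => rfl
  obtain ⟨d, hd⟩ := Int.subgroup_cyclic (L.map φ)
  wlog hd0 : 0 ≤ d with H
  · exact H L hL i0 j0 h0 hne hprim hφ (-d) (by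
      rw [hd]
      ext x
      simp only [AddSubgroup.mem_closure_singleton]
      constructor
      · rintro ⟨n, rfl⟩; exact ⟨-n, by simp⟩
      · rintro ⟨n, rfl⟩; exact ⟨-n, by simp⟩) (by omega)
  have hdm : d ∈ L.map φ := by
    rw [hd]; exact AddSubgroup.subset_closure rfl
  obtain ⟨⟨i1, j1⟩, h1, h1d⟩ := hdm
  rw [hφ] at h1d
  simp only at h1d
  have hgen : ∀ i j : ℤ, (i, j) ∈ L → ∃ x y : ℤ, i = x * i0 + y * i1 ∧ j = x * j0 + y * j1 := by
    intro i j hij
    have hm : φ (i, j) ∈ L.map φ := ⟨_, hij, rfl⟩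
    rw [hd, AddSubgroup.mem_closure_singleton] at hm
    obtain ⟨y, hy⟩ := hm
    rw [hφ] at hy
    simp only [smul_eq_mul] at hy
    have hv : (i - y * i1, j - y * j1) ∈ L := by
      have := L.sub_mem hij (L.zsmul_mem h1 y)
      simpa using this
    obtain ⟨x, hx1, hx2⟩ := hprim _ _ hv (by linear_combination hy + y * h1d)
    exact ⟨x, y, by linarith, by linarith⟩
  have hdpos : 0 < d := by
    rcases lt_or_eq_of_le hd0 with h | h
    · exact h
    · exfalso
      have hker : ∀ v ∈ L, φ v = 0 := by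
        intro v hv
        have hm : φ v ∈ L.map φ := ⟨_, hv, rfl⟩
        rw [hd, ← h, AddSubgroup.mem_closure_singleton] at hm
        obtain ⟨n, hn⟩ := hm
        simpa using hn.symm
      have hmem : ∀ v : ℤ × ℤ, (L.index : ℤ) • v ∈ L := by
        intro v
        have := L.nsmul_index_mem v
        rw [natCast_zsmul]
        exact this
      have e1 := hker _ (hmem (1, 0))
      have e2 := hker _ (hmem (0, 1))
      rw [hφ] at e1 e2
      simp at e1 e2
      rcases e1 with e1 | e1
      · rcases e2 with e2 | e2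
        · exact hne ⟨e2, e1⟩
        · exact hL (by exact_mod_cast e2)
      · exact hL (by exact_mod_cast e1)
  refine ⟨i1, j1, h1, ?_, hgen⟩
  -- the index
  let v : Fin 2 → L := ![⟨(i0, j0), h0⟩, ⟨(i1, j1), h1⟩]
  have hli : LinearIndependent ℤ v := by
    rw [LinearIndependent.pair_iff]
    intro s t hst
    have e := congrArg (Subtype.val) hst
    have e1 := congrArg Prod.fst e
    have e2 := congrArg Prod.snd e
    simp at e1 e2
    have ht : t * d = 0 := by
      rw [← h1d]
      linear_combination j0 * e1 - i0 * e2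
    have ht0 : t = 0 := by
      rcases mul_eq_zero.1 ht with h | h
      · exact h
      · omega
    subst ht0
    simp at e1 e2
    refine ⟨?_, rfl⟩
    by_contra hs
    exact hne ⟨by tauto, by tauto⟩
  have hsp : ⊤ ≤ Submodule.span ℤ (Set.range v) := by
    rintro ⟨⟨i, j⟩, hij⟩ -
    obtain ⟨x, y, hx, hy⟩ := hgen i j hij
    have e : (⟨(i, j), hij⟩ : L) = x • v 0 + y • v 1 := by
      apply Subtype.ext
      simp [v, hx, hy]
    rw [e]
    exact Submodule.add_mem _ (Submodule.smul_mem _ _ (Submodule.subset_span ⟨0, rfl⟩))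
      (Submodule.smul_mem _ _ (Submodule.subset_span ⟨1, rfl⟩))
  have hidx := AddSubgroup.index_eq_natAbs_det (Module.Basis.finTwoProd ℤ) L (Module.Basis.mk hli hsp)
  rw [hidx, Module.Basis.det_apply, Matrix.det_fin_two]
  simp [Module.Basis.toMatrix_apply, v]
  rw [abs_of_nonpos (by linarith)]
  ring

end Pool.Agent.Lib.MP_688fd0_co.SQ5.H41
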