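import Pool.Agent.Lib.MP_688fd0_co.SQ5.H41.SparseL

/-!
FT5: sites of a strip between the walls of the base are determined by their classes modulo the lattice, up to one period;
the levels of two visits of the same coset.
-/

set_option autoImplicit false

namespace Pool.Agent.Lib.MP_688fd0_co.SQ5.H41

open Pool.Agent.Lib.MP_688fd0_co.SQ5.H12 Pool.Agent.Lib.MP_688fd0_co.SQ5.H76

variable {L : AddSubgroup (ℤ × ℤ)} {M R : ℕ} {dc : ℕ → ℤ} {spc : ℕ → Prop} {G : ℤ} (g : Geo L M R dc spc G)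

theorem C_w0z (x K s : ℤ) : g.C K (s + x * (g.i0 + g.j0)) = g.C K s + x * (g.i0 - g.j0) := by
  induction x using Int.induction_on with
  | zero => simp
  | succ n ih =>
    have e : s + ((n : ℤ) + 1) * (g.i0 + g.j0) = s + n * (g.i0 + g.j0) + (g.i0 + g.j0) := by ring
    rw [e, g.C_w0, ih]; ring
  | pred n ih =>
    have e : s + (-(n : ℤ)) * (g.i0 + g.j0) = s + (-(n : ℤ) - 1) * (g.i0 + g.j0) + (g.i0 + g.j0) := by ring
    rw [e, g.C_w0] at ih
    linarith

theorem C_w1z (x K s : ℤ) : g.C (K + x * R) (s + x * (g.i1 + g.j1)) = g.C K s + x * (g.i1 - g.j1) := by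
  induction x using Int.induction_on with
  | zero => simp
  | succ n ih =>
    have e : s + ((n : ℤ) + 1) * (g.i1 + g.j1) = s + n * (g.i1 + g.j1) + (g.i1 + g.j1) := by ring
    have e' : K + ((n : ℤ) + 1) * R = K + n * R + R := by ring
    rw [e, e', g.C_w1, ih]; ring
  | pred n ih =>
    have e : s + (-(n : ℤ)) * (g.i1 + g.j1) = s + (-(n : ℤ) - 1) * (g.i1 + g.j1) + (g.i1 + g.j1) := by ring
    have e' : K + (-(n : ℤ)) * R = K + (-(n : ℤ) - 1) * R + R := by ring
    rw [e, e', g.C_w1] at ih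
    linarith

theorem C_mono {K K' : ℤ} (h : K ≤ K') (s : ℤ) : g.C K s ≤ g.C K' s := by
  rcases eq_or_lt_of_le h with rfl | h
  · exact le_refl _
  · have := g.pat.C_lt h s
    have e : g.pat.C = g.C := rfl
    rw [e] at this
    linarith

/-- The sea is between a strip and the strips of the next copies. -/
theorem sea_between {K : ℤ} (hK : K % R ≠ R - 1) {x : ℤ} (hx : 1 ≤ x) (s : ℤ) :
    g.C (K + 1) s + (3 * R + 10) ≤ g.C (K + x * R) s := by
  have hR := g.R_pos
  have h0 := Int.emod_nonneg K (ne_of_gt hR)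
  have h1 := Int.emod_lt_of_pos K hR
  have hm : (K + (R - 1 - K % R)) % R = R - 1 := by
    have e : K + (R - 1 - K % R) = (R - 1) + R * (K / R) := by
      have := Int.emod_add_mul_ediv K R
      linarith
    rw [e, Int.add_mul_emod_self_left]
    exact Int.emod_eq_of_lt (by omega) (by omega)
  have h2 := g.gap_sea hm s
  have h3 := C_mono g (show K + 1 ≤ K + (R - 1 - K % R) by omega) s
  have h4 : K + (R - 1 - K % R) + 1 ≤ K + x * R := by
    have : (R : ℤ) ≤ x * R := by nlinarith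
    omega
  have h5 := C_mono g h4 s
  linarith

/-- **Uniqueness.** Two points of a strip (not the sea) with margin `m`, levels less than one period apart and the same class
modulo the lattice are equal. -/
theorem uniq_ij {K : ℤ} (hK : K % R ≠ R - 1) {m : ℤ} (hm : 2 * m < 3 * R + 10) {s s' c c' di dj : ℤ}
    (hL : (di, dj) ∈ L) (hs : s - s' = di + dj) (hc : c - c' = di - dj)
    (h1 : g.C K s - m ≤ c) (h2 : c ≤ g.C (K + 1) s + m) (h3 : g.C K s' - m ≤ c') (h4 : c' ≤ g.C (K + 1) s' + m)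
    (hlt : |s - s'| < g.i0 + g.j0) : s = s' ∧ c = c' := by
  obtain ⟨x, x', h5, h6⟩ := g.ker di dj hL
  have hs' : s = s' + x * (g.i0 + g.j0) + x' * (g.i1 + g.j1) := by rw [h5, h6] at hs; linarith
  have hc' : c = c' + x * (g.i0 - g.j0) + x' * (g.i1 - g.j1) := by rw [h5, h6] at hc; linarith
  have key : ∀ K', g.C (K' + x' * R) s = g.C K' s' + (c - c') := by
    intro K'
    rw [hs', C_w1z, C_w0z]
    linarith
  rcases lt_trichotomy x' 0 with hx | hx | hx
  · exfalso
    have hK' : (K + x' * R) % R ≠ R - 1 := by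
      rw [Int.add_mul_emod_self_right]; exact hK
    have h7 := sea_between g hK' (x := -x') (by omega) s
    have e : K + x' * R + -x' * R = K := by ring
    have e' : K + x' * R + 1 = K + 1 + x' * R := by ring
    rw [e, e', key (K + 1)] at h7
    linarith
  · have h8 : s - s' = x * (g.i0 + g.j0) := by rw [hs', hx]; ring
    have h9 : x = 0 := by
      by_contra hne
      have h10 : 1 ≤ |x| := Int.one_le_abs hne
      have h11 : |s - s'| = |x| * (g.i0 + g.j0) := by
        rw [h8, abs_mul, abs_of_pos g.l0_pos]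
      have := g.l0_pos
      nlinarith
    rw [hx, h9] at hs' hc'
    exact ⟨by linarith, by linarith⟩
  · exfalso
    have h7 := sea_between g hK (x := x') (by omega) s
    rw [key K] at h7
    linarith

theorem lv_pair {s c s' c' : ℤ} (h : EqL L (Pat.lv s c) (Pat.lv s' c')) :
    ∃ di dj, (di, dj) ∈ L ∧ s - s' = di + dj ∧ c - c' = di - dj := by
  obtain ⟨h1, h2⟩ := h
  unfold Pat.lv at h1 h2
  by_cases e1 : (c - s) % 2 = 0 <;> by_cases e2 : (c' - s') % 2 = 0
  · rw [if_pos e1, if_pos e2] at h2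
    refine ⟨_, _, h2, ?_, ?_⟩ <;> simp only [] <;> omega
  · rw [if_pos e1, if_neg e2] at h1
    simp at h1
  · rw [if_neg e1, if_pos e2] at h1
    simp at h1
  · rw [if_neg e1, if_neg e2] at h2
    refine ⟨_, _, h2, ?_, ?_⟩ <;> simp only [] <;> omega

/-- Uniqueness for the vertices of the lines. -/
theorem uniq_lv {K : ℤ} (hK : K % R ≠ R - 1) {m : ℤ} (hm : 2 * m < 3 * R + 10) {s s' c c' : ℤ}
    (h : EqL L (Pat.lv s c) (Pat.lv s' c'))
    (h1 : g.C K s - m ≤ c) (h2 : c ≤ g.C (K + 1) s + m) (h3 : g.C K s' - m ≤ c') (h4 : c' ≤ g.C (K + 1) s' + m)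
    (hlt : |s - s'| < g.i0 + g.j0) : s = s' ∧ c = c' := by
  obtain ⟨di, dj, h5, h6, h7⟩ := lv_pair h
  exact uniq_ij g hK hm h5 h6 h7 h1 h2 h3 h4 hlt

/-- Uniqueness for sites of the same colour. -/
theorem uniq_site {K : ℤ} (hK : K % R ≠ R - 1) {m : ℤ} (hm : 2 * m < 3 * R + 10) {i j i' j' : ℤ}
    (h : (i - i', j - j') ∈ L)
    (h1 : g.C K (i + j) - m ≤ i - j) (h2 : i - j ≤ g.C (K + 1) (i + j) + m)
    (h3 : g.C K (i' + j') - m ≤ i' - j') (h4 : i' - j' ≤ g.C (K + 1) (i' + j') + m)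
    (hlt : |(i + j) - (i' + j')| < g.i0 + g.j0) : i = i' ∧ j = j' := by
  have := uniq_ij g hK hm h (by ring) (by ring) h1 h2 h3 h4 hlt
  omega

/-- Two visits of one coset: if they are at most `G` levels apart then their level difference is `u f - y` with a bad level
`y` (the set of `sparse_levels` with `Wd = D + 8`). -/
theorem far_levels {K : ℤ} (hK : (K % R).toNat + 1 < R) (hsp : ¬ spc (K % R).toNat) {i j i' j' : ℤ}
    (h1 : g.C K (i + j) ≤ i - j) (h2 : i - j ≤ g.C (K + 1) (i + j))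
    (h3 : g.C K (i' + j') ≤ i' - j') (h4 : i' - j' ≤ g.C (K + 1) (i' + j'))
    (hG : |(i' + j') - (i + j)| ≤ G) {u f : ℤ} (hu : u % 2 = 0) (d : ℤ × ℤ)
    (h : (i' - i - d.1 - f * (u / 2), j' - j - d.2 - f * (u / 2)) ∈ L) :
    ∃ y ∈ {y : ℤ | ∃ x ∈ L, |(d + x).1 - (d + x).2| ≤ dc (K % R).toNat + 8 ∧ y = -((d + x).1 + (d + x).2)},
      (i' + j') - (i + j) = u * f - y := by
  have hgap := g.gap_al hK hsp
  rw [abs_le] at hG
  have hshort : g.C K (i + j) - 3 ≤ g.C K (i' + j') ∧ g.C K (i' + j') ≤ g.C K (i + j) + 3 := by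
    unfold Geo.C
    rcases le_total (i + j) (i' + j') with hle | hle
    · have := g.w.C_short g.G1 (s := i + j - g.Lv K) (s' := i' + j' - g.Lv K) (by omega) (by omega)
      constructor <;> linarith [this.1, this.2]
    · have := g.w.C_short g.G1 (s := i' + j' - g.Lv K) (s' := i + j - g.Lv K) (by omega) (by omega)
      constructor <;> linarith [this.1, this.2]
  have e1 := hgap (i + j)
  have e2 := hgap (i' + j')
  have hu2 : 2 * (f * (u / 2)) = u * f := by
    have : 2 * (u / 2) = u := by omega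
    linear_combination f * this
  refine ⟨u * f - ((i' + j') - (i + j)), ⟨_, h, ?_, ?_⟩, by ring⟩
  · have e : (d + (i' - i - d.1 - f * (u / 2), j' - j - d.2 - f * (u / 2))).1 -
        (d + (i' - i - d.1 - f * (u / 2), j' - j - d.2 - f * (u / 2))).2 = (i' - j') - (i - j) := by
      simp only [Prod.fst_add, Prod.snd_add]; ring
    rw [e, abs_le]
    constructor <;> linarith [hshort.1, hshort.2]
  · have e : (d + (i' - i - d.1 - f * (u / 2), j' - j - d.2 - f * (u / 2))).1 +
        (d + (i' - i - d.1 - f * (u / 2), j' - j - d.2 - f * (u / 2))).2 = (i' + j') - (i + j) - 2 * (f * (u / 2)) := by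
      simp only [Prod.fst_add, Prod.snd_add]; ring
    rw [e, hu2]; ring

end Pool.Agent.Lib.MP_688fd0_co.SQ5.H41
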