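import Pool.Agent.Lib.MP_688fd0_co.SQ5.NA.Iface
import Pool.Agent.Lib.MP_688fd0_co.SQ4.H87.Dstr

/-!
DSTRA (row of board `na_modules`): `Q = G / C`. The image `M` of `N` is central in the kernel of `eps`, so it has a
normal complement `D` there, which consists of the elements `x` with `x ^ k = 1`. For `x` in the kernel let `v` be the
`M`-part: `v ^ k = x ^ k`, `v⁻¹ x ∈ D`; `z` is the `M`-part of `a b`.
-/

set_option autoImplicit false

namespace Pool.Agent.Lib.MP_688fd0_co.SQ5.NA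

open Pool.Agent.Lib.MP_688fd0_co.OSF Pool.Agent.Lib.MP_688fd0_co.SQ2 Pool.Agent.Lib.MP_688fd0_co.SQ3
open Pool.Agent.Lib.MP_688fd0_co.SQ4 Pool.Agent.Lib.MP_688fd0_co.SQ5.N
open scoped Pointwise

theorem dstrA : DstrAS := by
  intro G _ _ N C eps k P A a b τ num den h hCn h1
  have hgn := h.gn
  have hNn := hgn.Nn
  have hCN : C ≤ N := hgn.CN
  have hNcomm : ∀ x ∈ N, ∀ y ∈ N, x * y = y * x := SQ2.H41.comm_of_cyclic N hgn.Nc
  set π := QuotientGroup.mk' C with hπ
  have hsurj : Function.Surjective π := QuotientGroup.mk'_surjective C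
  have hker : ∀ x, π x = 1 ↔ x ∈ C := fun x => QuotientGroup.eq_one_iff x
  set M : Subgroup (G ⧸ C) := N.map π with hM
  have hMn : M.Normal := hNn.map π hsurj
  have hMk : M.index = k := by
    rw [hM, Subgroup.index_map, QuotientGroup.ker_mk', sup_of_le_left hCN,
      MonoidHom.range_eq_top.2 hsurj, Subgroup.index_top, mul_one, hgn.idx]
  have hMd : Nat.card M ∣ Nat.card N := Subgroup.card_map_dvd N π
  have hMcop : (Nat.card M).Coprime k := hgn.cop.coprime_dvd_left hMd
  have hk0 : 0 < k := by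
    rw [← hgn.idx]; exact Nat.pos_of_ne_zero N.index_ne_zero_of_finite
  have hMcomm : ∀ x ∈ M, ∀ y ∈ M, x * y = y * x := by
    rintro _ ⟨x, hx, rfl⟩ _ ⟨y, hy, rfl⟩
    rw [← map_mul, ← map_mul, hNcomm x hx y hy]
  have hMord : ∀ x ∈ M, orderOf x ∣ Nat.card M := fun x hx => by
    rw [← Subgroup.orderOf_mk _ hx]
    exact orderOf_dvd_natCard _
  have hMpow : ∀ x ∈ M, x ^ k = 1 → x = 1 := by
    intro x hx hxk
    have h3 : orderOf x = 1 :=
      Nat.eq_one_of_dvd_coprimes hMcop (hMord x hx) (orderOf_dvd_of_pow_eq_one hxk)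
    exact orderOf_eq_one_iff.1 h3
  have hkM : ∀ x : G ⧸ C, x ^ k ∈ M := by
    intro x
    have h2 := Subgroup.pow_index_mem M x
    rwa [hMk] at h2
  -- the character
  have hCk : ∀ g ∈ C, eps g = 1 := fun g hg => hgn.eN g (hCN hg)
  set eps' : G ⧸ C →* ℤˣ := QuotientGroup.lift C eps hCk with heps
  have heps' : ∀ g, eps' (π g) = eps g := fun g => rfl
  have hMact : ∀ m ∈ M, ∀ g, g * m * g⁻¹ = m ^ ((eps' g : ℤˣ) : ℤ) := by
    rintro _ ⟨n, hn, rfl⟩ g
    obtain ⟨g, rfl⟩ := hsurj g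
    have h2 := (hker _).2 (hgn.act n hn g)
    rw [map_mul, map_mul, map_mul, map_inv, map_inv, map_zpow] at h2
    rw [heps']
    exact mul_inv_eq_one.1 h2
  have hMe : ∀ m ∈ M, eps' m = 1 := by
    rintro _ ⟨n, hn, rfl⟩
    rw [heps']
    exact hgn.eN n hn
  have hMcen : ∀ m ∈ M, ∀ g, eps' g = 1 → g * m = m * g := by
    intro m hm g hg
    have h2 := hMact m hm g
    rw [hg, Units.val_one, zpow_one] at h2
    exact mul_inv_eq_iff_eq_mul.1 h2
  -- the complement
  set Qp := eps'.ker with hQp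
  have hMle : M ≤ Qp := fun m hm => hMe m hm
  set Y : Subgroup Qp := M.subgroupOf Qp with hY
  have hYc : Nat.card Y = Nat.card M := Nat.card_congr (Subgroup.subgroupOfEquivOfLe hMle).toEquiv
  have hYcen : ∀ y ∈ Y, ∀ g, y * g = g * y := by
    intro y hy g
    exact Subtype.ext (hMcen y (Subgroup.mem_subgroupOf.1 hy) g g.2).symm
  have hidx : (Nat.card Y).Coprime Y.index := by
    rw [hYc]
    have h2 : Y.index ∣ k := by
      rw [← hMk]
      exact Subgroup.relIndex_dvd_index_of_normal M Qp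
    exact hMcop.coprime_dvd_right h2
  obtain ⟨K, hK1, hK2, -⟩ := SQ4.H87.compl Y hYcen hidx
  rw [hYc] at hK1 hK2
  set D : Subgroup (G ⧸ C) := K.map Qp.subtype with hD
  have hDe : ∀ x ∈ D, eps' x = 1 := by
    rintro _ ⟨κ, -, rfl⟩
    exact κ.2
  have hDin : ∀ x, eps' x = 1 → (orderOf x).Coprime (Nat.card M) → x ∈ D := by
    intro x hx hxc
    have hx' : x ∈ Qp := hx
    refine ⟨⟨x, hx'⟩, hK2 _ ?_, rfl⟩
    rw [Subgroup.orderOf_mk]
    exact hxc
  have hDout : ∀ x ∈ D, (orderOf x).Coprime (Nat.card M) := by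
    rintro _ ⟨κ, hκ, rfl⟩
    have h2 : orderOf (Qp.subtype κ) = orderOf κ := Subgroup.orderOf_coe κ
    rw [h2]
    refine Nat.Coprime.coprime_dvd_left ?_ hK1
    rw [← Subgroup.orderOf_mk κ hκ]
    exact orderOf_dvd_natCard _
  have hDin' : ∀ x, eps' x = 1 → x ^ k = 1 → x ∈ D := by
    intro x hx hxk
    exact hDin x hx (hMcop.symm.coprime_dvd_left (orderOf_dvd_of_pow_eq_one hxk))
  have hDn : D.Normal := by
    refine ⟨fun x hx g => ?_⟩
    refine hDin _ ?_ ?_
    · rw [map_mul, map_mul, hDe x hx, mul_one, map_inv, mul_inv_cancel]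
    · have h3 : orderOf x = orderOf (g * x * g⁻¹) :=
        SemiconjBy.orderOf_eq g (by show g * x = g * x * g⁻¹ * g; group)
      rw [← h3]
      exact hDout x hx
  have hDk : Nat.card D ∣ k := by
    have h2 : Nat.card D ∣ Nat.card K := Subgroup.card_map_dvd K _
    have h3 : Nat.card D ∣ Nat.card (G ⧸ C) := Subgroup.card_subgroup_dvd_card _
    rw [← M.card_mul_index, hMk] at h3
    exact (hK1.coprime_dvd_left h2).dvd_of_dvd_mul_left h3
  -- the `M`-part
  have hpart : ∀ x, eps' x = 1 → ∃ v ∈ M, v ^ k = x ^ k ∧ v⁻¹ * x ∈ D := by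
    intro x hx
    have h2 : (orderOf (x ^ k)).Coprime k := hMcop.coprime_dvd_left (hMord _ (hkM x))
    obtain ⟨t, ht⟩ := exists_pow_eq_self_of_coprime h2.symm
    have hv : (x ^ k) ^ t ∈ M := M.pow_mem (hkM x) t
    have hvk : ((x ^ k) ^ t) ^ k = x ^ k := by
      rw [← pow_mul, mul_comm t k, pow_mul]
      exact ht
    refine ⟨(x ^ k) ^ t, hv, hvk, hDin' _ ?_ ?_⟩
    · rw [map_mul, map_inv, hMe _ hv, hx, inv_one, mul_one]
    · have h3 : Commute ((x ^ k) ^ t) x := (hMcen _ hv x hx).symm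
      rw [(h3.inv_left).mul_pow, inv_pow, hvk, inv_mul_cancel]
  have hinv : ∀ s ∈ A, s⁻¹ = s := fun s hs => inv_eq_of_mul_eq_one_right (h.inv s hs)
  set w := π (a * b⁻¹) with hw
  have hwe : eps' w = 1 := by
    rw [hw, heps', map_mul, map_inv, h.neg a h.aA, h.neg b h.bA]
    decide
  obtain ⟨z, hzM, hzk, hzD⟩ := hpart w hwe
  obtain ⟨z₀, hz₀, hz₀z⟩ := hzM
  have hzM : z ∈ M := ⟨z₀, hz₀, hz₀z⟩
  have hzc : ∀ x, eps' x = 1 → x * z = z * x := fun x hx => hMcen z hzM x hx
  have hprime : ∀ p ∈ (Nat.card M).primeFactors, k < p ∧ τ < p := by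
    intro p hp
    have h2 : p ∈ (Nat.card N).primeFactors := Nat.primeFactors_mono hMd Nat.card_pos.ne' hp
    have h3 := h.bigN p h2
    have h4 : τ ≤ τ ^ 9 := Nat.le_self_pow (by norm_num) τ
    have h5 := h.τpos
    have h6 : 1 ≤ τ ^ 9 := Nat.one_le_pow _ _ h5
    constructor
    · refine lt_of_le_of_lt ?_ h3
      nlinarith
    · refine lt_of_le_of_lt ?_ h3
      nlinarith
  -- the order of `z`
  have hPz : P ∣ orderOf z := by
    have hPp := hgn.prime
    have h2 : w ^ (k * orderOf z) = 1 := by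
      rw [pow_mul, ← hzk, ← pow_mul, mul_comm k, pow_mul, pow_orderOf_eq_one, one_pow]
    have h3 : (a * b⁻¹) ^ (k * orderOf z) ∈ C := by
      rw [← hker, map_pow]
      exact h2
    have h4 : (a * b) ^ (k * orderOf z * Nat.card C) = 1 := by
      rw [hinv b h.bA] at h3
      rw [pow_mul]
      have h5 : (⟨_, h3⟩ : C) ^ Nat.card C = 1 := pow_card_eq_one'
      exact congrArg Subtype.val h5
    have h5 : P ∣ k * orderOf z * Nat.card C := h.hab.trans (orderOf_dvd_of_pow_eq_one h4)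
    rcases hPp.dvd_mul.1 h5 with h6 | h6
    · rcases hPp.dvd_mul.1 h6 with h7 | h7
      · exact absurd (Nat.eq_one_of_dvd_coprimes hgn.cop hgn.dvd h7) hPp.one_lt.ne'
      · exact h7
    · exact absurd h6 hgn.ndvd
  -- the other letters
  have hnear : ∀ s ∈ A, s ≠ a → s ≠ b → 0 < num s ∧ num s < den s ∧ den s ≤ τ ∧
      ∃ v ∈ Subgroup.zpowers z, v ^ den s = z ^ num s ∧ v⁻¹ * (π a * (π s)⁻¹) ∈ D := by
    intro s hs hsa hsb
    obtain ⟨r1, r2, r3, r4⟩ := h.rel s hs hsa hsb
    refine ⟨r1, r2, r3, ?_⟩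
    have hse : eps' (π a * (π s)⁻¹) = 1 := by
      rw [map_mul, map_inv, heps', heps', h.neg a h.aA, h.neg s hs]
      decide
    obtain ⟨v, hvM, hvk, hvD⟩ := hpart _ hse
    have e1 : (π a * (π s)⁻¹) ^ (den s * k) = w ^ (num s * k) := by
      have h2 := (hker _).2 r4
      rw [map_mul, map_inv, map_pow, map_pow] at h2
      have h3 := mul_inv_eq_one.1 h2
      rw [hw, hinv b h.bA, ← h3, ← map_inv, hinv s hs, map_mul]
    have e2 : v ^ den s = z ^ num s := by
      have hvd : v ^ den s ∈ M := M.pow_mem hvM _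
      have hzn : z ^ num s ∈ M := M.pow_mem hzM _
      have e3 : (v ^ den s * (z ^ num s)⁻¹) ^ k = 1 := by
        have h2 : Commute (v ^ den s) (z ^ num s)⁻¹ := hMcomm _ hvd _ (M.inv_mem hzn)
        rw [h2.mul_pow, inv_pow, mul_inv_eq_one, ← pow_mul, ← pow_mul, mul_comm (den s), mul_comm (num s), pow_mul,
          pow_mul, hvk, hzk, ← pow_mul, ← pow_mul, mul_comm k, mul_comm k]
        exact e1
      exact mul_inv_eq_one.1 (hMpow _ (M.mul_mem hvd (M.inv_mem hzn)) e3)
    have hcop : (orderOf v).Coprime (den s) := by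
      refine Nat.coprime_of_dvd ?_
      intro p hp h3 h4
      have h5 := hprime p (Nat.mem_primeFactors.2 ⟨hp, h3.trans (hMord v hvM), Nat.card_pos.ne'⟩)
      have h6 := Nat.le_of_dvd (by omega) h4
      omega
    obtain ⟨t, ht⟩ := exists_pow_eq_self_of_coprime hcop.symm
    refine ⟨v, ?_, e2, hvD⟩
    rw [← ht, e2]
    exact Subgroup.pow_mem _ (Subgroup.pow_mem _ (Subgroup.mem_zpowers z) _) _
  -- `ker eps' = ⟨z⟩ D`
  have hZn : (Subgroup.zpowers z).Normal := by
    refine ⟨fun x hx g => ?_⟩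
    obtain ⟨i, rfl⟩ := Subgroup.mem_zpowers_iff.1 hx
    rw [hMact _ (M.zpow_mem hzM i) g]
    exact Subgroup.zpow_mem _ (Subgroup.zpow_mem _ (Subgroup.mem_zpowers z) _) _
  set H : Subgroup (G ⧸ C) := Subgroup.zpowers z ⊔ D with hH
  have hHn : H.Normal := Subgroup.sup_normal _ _
  have hHe : ∀ x ∈ H, eps' x = 1 := by
    have h2 : H ≤ Qp := by
      rw [hH, sup_le_iff]
      refine ⟨?_, fun x hx => hDe x hx⟩
      rw [Subgroup.zpowers_le]
      exact hMe z hzM
    exact fun x hx => h2 hx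
  have hzH : ∀ v ∈ Subgroup.zpowers z, ∀ x, v⁻¹ * x ∈ D → x ∈ H := by
    intro v hv x hx
    have h2 : x = v * (v⁻¹ * x) := by rw [mul_inv_cancel_left]
    rw [h2]
    exact H.mul_mem (Subgroup.mem_sup_left hv) (Subgroup.mem_sup_right hx)
  have haa : π a * π a = 1 := by rw [← map_mul, h.inv a h.aA, map_one]
  have haa' : (π a)⁻¹ = π a := inv_eq_of_mul_eq_one_right haa
  have hAH : ∀ s ∈ A, π a * π s ∈ H := by
    intro s hs
    by_cases hsa : s = a
    · rw [hsa, haa]
      exact H.one_mem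
    by_cases hsb : s = b
    · have h2 := hzH z (Subgroup.mem_zpowers z) w hzD
      rw [hw, hinv b h.bA, map_mul] at h2
      rw [hsb]
      exact h2
    · obtain ⟨-, -, -, v, hv, -, hvD⟩ := hnear s hs hsa hsb
      have h2 := hzH v hv _ hvD
      rw [← map_inv, hinv s hs] at h2
      exact h2
  have hall : ∀ x : G ⧸ C, x ∈ H ∨ π a * x ∈ H := by
    intro x
    obtain ⟨g, rfl⟩ := hsurj x
    have hg : g ∈ Subgroup.closure A := by rw [h.gen]; exact Subgroup.mem_top g
    induction hg using Subgroup.closure_induction with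
    | mem s hs => exact Or.inr (hAH s hs)
    | one => exact Or.inl (by rw [map_one]; exact H.one_mem)
    | mul x y _ _ hx hy =>
      rw [map_mul]
      rcases hx with hx | hx
      · rcases hy with hy | hy
        · exact Or.inl (H.mul_mem hx hy)
        · right
          have h2 : π a * (π x * π y) = (π a * π x * (π a)⁻¹) * (π a * π y) := by group
          rw [h2]
          exact H.mul_mem (hHn.conj_mem _ hx _) hy
      · rcases hy with hy | hy
        · right
          rw [← mul_assoc]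
          exact H.mul_mem hx hy
        · left
          have h2 : π x * π y = ((π a)⁻¹ * (π a * π x) * (π a)⁻¹⁻¹) * ((π a * π a)⁻¹ * (π a * π y)) := by group
          rw [h2, haa, inv_one, one_mul]
          exact H.mul_mem (hHn.conj_mem _ hx _) hy
    | inv x _ hx =>
      rw [map_inv]
      rcases hx with hx | hx
      · exact Or.inl (H.inv_mem hx)
      · right
        have h2 : π a * (π x)⁻¹ = (π a * (π a * π x)⁻¹ * (π a)⁻¹) * (π a * π a) := by group
        rw [h2, haa, mul_one]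
        exact hHn.conj_mem _ (H.inv_mem hx) _
  have hkerz : ∀ x, eps' x = 1 → ∃ n : ℤ, ∃ d ∈ D, x = z ^ n * d := by
    intro x hx
    have h2 : x ∈ H := by
      rcases hall x with h2 | h2
      · exact h2
      · exfalso
        have h3 := hHe _ h2
        rw [map_mul, hx, mul_one, heps', h.neg a h.aA] at h3
        exact absurd h3 (by decide)
    have h3 : x ∈ ((Subgroup.zpowers z : Set (G ⧸ C)) * (D : Set (G ⧸ C))) := by
      rw [← Subgroup.mul_normal]
      exact h2
    obtain ⟨_, ⟨n, rfl⟩, d, hd, rfl⟩ := h3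
    exact ⟨n, d, hd, rfl⟩
  refine ⟨D, z₀, eps', heps', hz₀, ?_, ?_⟩
  · rw [hz₀z]
    exact hPz
  intro a' b' ha' hb'
  rw [hz₀z]
  have hq : ∀ s : (qLb C A h.sym h1).L, (qLb C A h.sym h1).q s = π s.1 := fun _ => rfl
  refine
    { fin := inferInstance
      finL := Subtype.finite
      gen := ?_
      kpos := hk0
      nD := hDn
      leD := fun x hx => hDe x hx
      card := hDk
      neg := fun s => by rw [hq, heps']; exact h.neg s.1 s.2.1
      inv := fun s => by rw [hq, ← map_mul, h.inv s.1 s.2.1, map_one]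
      ez := hMe z hzM
      cen := hzc
      cop := fun p hp => hprime p (Nat.primeFactors_mono (hMord z hzM) Nat.card_pos.ne' hp)
      ker := hkerz
      mw := ?_
      turn := ?_
      near := ?_ }
  · rw [eq_top_iff]
    have h2 : Subgroup.map π (Subgroup.closure A) = ⊤ := by
      rw [h.gen, ← MonoidHom.range_eq_map, MonoidHom.range_eq_top.2 hsurj]
    rw [← h2, MonoidHom.map_closure, Subgroup.closure_le]
    rintro _ ⟨g, hg, rfl⟩
    by_cases hg1 : g = 1
    · rw [hg1, map_one]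
      exact Subgroup.one_mem _
    · exact Subgroup.subset_closure ⟨⟨g, hg, hg1⟩, rfl⟩
  · rw [hq, hq, ha', hb', ← map_inv, ← map_mul, ← hw]
    exact hzD
  · rw [hq, ha', hMact z hzM, heps', h.neg a h.aA]
    simp
  · intro s hsa hsb
    rw [hq, hq, ha']
    refine hnear s.1 s.2.1 (fun h2 => hsa (Subtype.ext (h2.trans ha'.symm)))
      (fun h2 => hsb (Subtype.ext (h2.trans hb'.symm)))

end Pool.Agent.Lib.MP_688fd0_co.SQ5.NA
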