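import Pool.Agent.Lib.MP_688fd0_co.SQ5.H23.GoodX
import Pool.Agent.Lib.MP_688fd0_co.SQ5.H16.Rad

/-!
The density statement `NiceCS`: almost all integers `n` have a cut `n = k * m` with
`(k + Omega n + 2) ^ c < p` for all primes `p` dividing `m`, and `(k + Omega n) ^ c <= log n`.
-/

set_option autoImplicit false

namespace Pool.Agent.Lib.MP_688fd0_co.SQ5.H41

open Finset Filter
open Pool.Agent.Lib.MP_688fd0_co.SQ2 Pool.Agent.Lib.MP_688fd0_co.SQ2.H41
open Pool.Agent.Lib.MP_ba0fa5_ag.AA (primesIn MertapStmt RecgStmt BtsumStmt)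
open Pool.Agent.Lib.MP_688fd0_co.OSF.H38 (ell two_le_ell harm_le card_mult mem_primesIn upp mert turan
  bad1 bad2 ev_pow ev_ell)

/-! ### Counting residues -/

/-- a periodic predicate: counting up to a multiple of the period -/
lemma count_per {p : ℕ → Prop} [DecidablePred p] {Q : ℕ} (h : Function.Periodic p Q) (t : ℕ) :
    Nat.count p (t * Q) = t * Nat.count p Q := by
  induction t with
  | zero => simp
  | succ t ih =>
    rw [add_mul, one_mul, Nat.count_add, ih, add_mul, one_mul]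
    congr 2
    funext k
    have : ∀ t k : ℕ, p (t * Q + k) = p k := by
      intro t k
      induction t with
      | zero => simp
      | succ t ih =>
        rw [← ih, add_mul, one_mul, show t * Q + Q + k = t * Q + k + Q by ring]
        exact h _
    exact this t k

lemma count_le_of_per {p : ℕ → Prop} [DecidablePred p] {Q : ℕ} (hQ : 0 < Q)
    (h : Function.Periodic p Q) (x : ℕ) (hx : Q ≤ x) :
    (((Ioc 0 x).filter p).card : ℝ) ≤ 2 * x * ((Nat.count p Q : ℝ) / Q) := by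
  have h1 : (Ioc 0 x).filter p ⊆ (range ((x / Q + 1) * Q)).filter p := by
    intro n hn
    rw [mem_filter, mem_Ioc] at hn
    rw [mem_filter, mem_range]
    refine ⟨?_, hn.2⟩
    have := Nat.lt_div_mul_add (a := x) hQ
    nlinarith [hn.1.2]
  have h2 := Finset.card_le_card h1
  rw [← Nat.count_eq_card_filter_range, count_per h] at h2
  have h3 : (((Ioc 0 x).filter p).card : ℝ) ≤ ((x / Q : ℕ) + 1 : ℝ) * Nat.count p Q := by
    exact_mod_cast h2
  have h4 : ((x / Q : ℕ) : ℝ) ≤ (x : ℝ) / Q := Nat.cast_div_le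
  have hQr : (0 : ℝ) < Q := by exact_mod_cast hQ
  have h5 : (1 : ℝ) ≤ (x : ℝ) / Q := by
    rw [le_div_iff₀ hQr, one_mul]; exact_mod_cast hx
  have h6 : (0 : ℝ) ≤ Nat.count p Q := Nat.cast_nonneg _
  calc (((Ioc 0 x).filter p).card : ℝ) ≤ ((x / Q : ℕ) + 1 : ℝ) * Nat.count p Q := h3
    _ ≤ ((x : ℝ) / Q + (x : ℝ) / Q) * Nat.count p Q := by
        apply mul_le_mul_of_nonneg_right _ h6; linarith
    _ = _ := by ring

/-- two predicates with coprime periods are independent -/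
lemma count_mul {p r : ℕ → Prop} [DecidablePred p] [DecidablePred r] {A B : ℕ} (hA : 0 < A)
    (hB : 0 < B) (hp : Function.Periodic p A) (hr : Function.Periodic r B) (h : Nat.Coprime A B) :
    Nat.count (fun n => p n ∧ r n) (A * B) = Nat.count p A * Nat.count r B := by
  rw [Nat.count_eq_card_filter_range, Nat.count_eq_card_filter_range,
    Nat.count_eq_card_filter_range, ← Finset.card_product]
  have hpm : ∀ n, p (n % A) = p n := fun n => hp.map_mod_nat n
  have hrm : ∀ n, r (n % B) = r n := fun n => hr.map_mod_nat n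
  refine Finset.card_bij (fun n _ => (n % A, n % B)) ?_ ?_ ?_
  · intro n hn
    rw [mem_filter, mem_range] at hn
    rw [mem_product, mem_filter, mem_filter, mem_range, mem_range]
    exact ⟨⟨Nat.mod_lt _ hA, by rw [hpm]; exact hn.2.1⟩, ⟨Nat.mod_lt _ hB, by rw [hrm]; exact hn.2.2⟩⟩
  · intro n hn n' hn' he
    rw [mem_filter, mem_range] at hn hn'
    have h1 := congrArg Prod.fst he
    have h2 := congrArg Prod.snd he
    simp only at h1 h2
    have h3 : n ≡ n' [MOD A * B] := (Nat.modEq_and_modEq_iff_modEq_mul h).1 ⟨h1, h2⟩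
    exact Nat.ModEq.eq_of_lt_of_lt h3 hn.1 hn'.1
  · rintro ⟨a, b⟩ hab
    rw [mem_product, mem_filter, mem_filter, mem_range, mem_range] at hab
    simp only at hab
    obtain ⟨⟨ha, hpa⟩, hb, hrb⟩ := hab
    have hc := (Nat.chineseRemainder h a b).2
    refine ⟨Nat.chineseRemainder h a b, ?_, ?_⟩
    · rw [mem_filter, mem_range]
      refine ⟨Nat.chineseRemainder_lt_mul h a b hA.ne' hB.ne', ?_, ?_⟩
      · rw [← hpm, hc.1, Nat.mod_eq_of_lt ha]; exact hpa
      · rw [← hrm, hc.2, Nat.mod_eq_of_lt hb]; exact hrb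
    · ext
      · simp only; rw [hc.1, Nat.mod_eq_of_lt ha]
      · simp only; rw [hc.2, Nat.mod_eq_of_lt hb]

/-- the product of a finite set of numbers -/
def Pr (S : Finset ℕ) : ℕ := ∏ p ∈ S, p

lemma Pr_pos {S : Finset ℕ} (hS : ∀ p ∈ S, p.Prime) : 0 < Pr S :=
  Finset.prod_pos fun p hp => (hS p hp).pos

lemma per_dvd (S : Finset ℕ) : Function.Periodic (fun n => ∃ p ∈ S, p ∣ n) (Pr S) := by
  intro n
  apply propext
  refine exists_congr fun p => and_congr_right fun hp => ?_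
  have : p ∣ Pr S := Finset.dvd_prod_of_mem _ hp
  exact (Nat.dvd_add_iff_left this).symm

/-- the density of the integers with a prime factor in `S` -/
lemma count_dvd {S : Finset ℕ} (hS : ∀ p ∈ S, p.Prime) :
    (Nat.count (fun n => ∃ p ∈ S, p ∣ n) (Pr S) : ℝ) / Pr S = 1 - ∏ p ∈ S, (1 - (p : ℝ)⁻¹) := by
  have h1 : Nat.count (fun n => ∃ p ∈ S, p ∣ n) (Pr S) + (Pr S).totient = Pr S := by
    rw [Nat.count_eq_card_filter_range, Nat.totient_eq_card_coprime]
    have h2 : (range (Pr S)).filter (fun n => (Pr S).Coprime n) =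
        (range (Pr S)).filter (fun n => ¬ ∃ p ∈ S, p ∣ n) := by
      refine Finset.filter_congr fun n _ => ?_
      rw [Pr, Nat.coprime_prod_left_iff]
      push Not
      exact forall₂_congr fun p hp => (hS p hp).coprime_iff_not_dvd
    rw [h2, Finset.card_filter_add_card_filter_not, Finset.card_range]
  have hpos : (0 : ℝ) < Pr S := by exact_mod_cast Pr_pos hS
  have h3 : ((Pr S).totient : ℝ) = Pr S * ∏ p ∈ S, (1 - (p : ℝ)⁻¹) := by
    have h4 := Nat.totient_eq_mul_prod_factors (Pr S)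
    have h5 : (Pr S).primeFactors = S := Nat.primeFactors_prod hS
    rw [h5] at h4
    have h6 := congrArg (Rat.cast : ℚ → ℝ) h4
    push_cast at h6
    exact h6
  have h7 : (Nat.count (fun n => ∃ p ∈ S, p ∣ n) (Pr S) : ℝ) + ((Pr S).totient : ℝ) = Pr S := by
    exact_mod_cast h1
  rw [h3] at h7
  rw [div_eq_iff hpos.ne']
  linarith

/-- independence of the blocks -/
lemma count_all {S : ℕ → Finset ℕ} (hS : ∀ j, ∀ p ∈ S j, p.Prime)
    (hd : ∀ i j, i < j → ∀ p ∈ S i, p ∉ S j) (J : ℕ) :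
    Function.Periodic (fun n => ∀ j < J, ∃ p ∈ S j, p ∣ n) (∏ j ∈ range J, Pr (S j)) ∧
    (Nat.count (fun n => ∀ j < J, ∃ p ∈ S j, p ∣ n) (∏ j ∈ range J, Pr (S j)) : ℝ) /
      ((∏ j ∈ range J, Pr (S j) : ℕ) : ℝ) =
        ∏ j ∈ range J, (1 - ∏ p ∈ S j, (1 - (p : ℝ)⁻¹)) := by
  induction J with
  | zero =>
    refine ⟨fun n => by simp, ?_⟩
    simp
  | succ J ih =>
    obtain ⟨ih1, ih2⟩ := ih
    have hA : 0 < ∏ j ∈ range J, Pr (S j) := Finset.prod_pos fun j _ => Pr_pos (hS j)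
    have hB : 0 < Pr (S J) := Pr_pos (hS J)
    have he : (fun n => ∀ j < J + 1, ∃ p ∈ S j, p ∣ n) =
        fun n => (∀ j < J, ∃ p ∈ S j, p ∣ n) ∧ ∃ p ∈ S J, p ∣ n := by
      funext n
      apply propext
      constructor
      · intro h
        exact ⟨fun j hj => h j (by omega), h J (by omega)⟩
      · rintro ⟨h1, h2⟩ j hj
        rcases Nat.lt_succ_iff_lt_or_eq.1 hj with h | h
        · exact h1 j h
        · subst h; exact h2
    have hcop : Nat.Coprime (∏ j ∈ range J, Pr (S j)) (Pr (S J)) := by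
      refine Nat.Coprime.prod_left fun j hj => ?_
      refine Nat.Coprime.prod_left fun p hp => ?_
      refine Nat.Coprime.prod_right fun q hq => ?_
      rw [Nat.coprime_primes (hS j p hp) (hS J q hq)]
      rintro rfl
      exact hd j J (mem_range.1 hj) p hp hq
    rw [Finset.prod_range_succ, Finset.prod_range_succ]
    constructor
    · rw [he]
      intro n
      simp only
      have e1 : ((∀ j < J, ∃ p ∈ S j, p ∣ n + (∏ j ∈ range J, Pr (S j)) * Pr (S J))) =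
          (∀ j < J, ∃ p ∈ S j, p ∣ n) := by
        have := ih1.nat_mul (Pr (S J)) n
        rw [mul_comm]
        exact this
      have e2 : (∃ p ∈ S J, p ∣ n + (∏ j ∈ range J, Pr (S j)) * Pr (S J)) =
          (∃ p ∈ S J, p ∣ n) := (per_dvd (S J)).nat_mul _ n
      rw [e1, e2]
    · have h1 := count_mul hA hB ih1 (per_dvd (S J)) hcop
      have h2 : Nat.count (fun n => ∀ j < J + 1, ∃ p ∈ S j, p ∣ n)
          ((∏ j ∈ range J, Pr (S j)) * Pr (S J)) =
          Nat.count (fun n => (∀ j < J, ∃ p ∈ S j, p ∣ n) ∧ ∃ p ∈ S J, p ∣ n)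
          ((∏ j ∈ range J, Pr (S j)) * Pr (S J)) := by
        rw [Nat.count_eq_card_filter_range, Nat.count_eq_card_filter_range]
        congr 1
        refine Finset.filter_congr fun n _ => ?_
        exact iff_of_eq (congrFun he n)
      rw [h2, h1, Nat.cast_mul, Nat.cast_mul, mul_div_mul_comm, ih2, count_dvd (hS J)]

/-- the density of the integers without a prime factor in a long block -/
lemma prod_ge (hM : MertapStmt) (hR : RecgStmt) : ∃ V₀ : ℕ, ∀ V m : ℕ, V₀ ≤ V → 1 ≤ m →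
    Real.exp (-(3 / 4) * m) ≤ ∏ p ∈ primesIn V (V ^ 2 ^ m), (1 - (p : ℝ)⁻¹) := by
  obtain ⟨V₀, hV₀⟩ := sum_le hM hR
  refine ⟨max V₀ 36, fun V m hV hm => ?_⟩
  have h1 := hV₀ V m ((le_max_left _ _).trans hV) hm
  have hV36 : 36 ≤ V := (le_max_right _ _).trans hV
  have hp : ∀ p ∈ primesIn V (V ^ 2 ^ m), (36 : ℝ) ≤ p := fun p hp => by
    have := (mem_primesIn.1 hp).1.1
    exact_mod_cast (by omega : 36 ≤ p)
  have hpos : ∀ p ∈ primesIn V (V ^ 2 ^ m), (0 : ℝ) < 1 - (p : ℝ)⁻¹ := fun p h => by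
    have h2 := hp p h
    have : (p : ℝ)⁻¹ ≤ 1 / 36 := by
      rw [inv_eq_one_div]; exact one_div_le_one_div_of_le (by norm_num) h2
    linarith
  rw [← Real.le_log_iff_exp_le (Finset.prod_pos hpos), Real.log_prod fun p h => (hpos p h).ne']
  have h3 : ∀ p ∈ primesIn V (V ^ 2 ^ m), -(36 / 35) * ((1 : ℝ) / p) ≤ Real.log (1 - (p : ℝ)⁻¹) := by
    intro p h
    have h2 := hp p h
    have h4 := Real.one_sub_inv_le_log_of_pos (hpos p h)
    refine le_trans ?_ h4
    have hp0 : (0 : ℝ) < p := by linarith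
    have e : 1 - (1 - (p : ℝ)⁻¹)⁻¹ = -(1 / (p - 1)) := by
      have : (p : ℝ) - 1 ≠ 0 := by linarith
      have e2 : 1 - (p : ℝ)⁻¹ = (p - 1) / p := by field_simp
      rw [e2, inv_div]
      field_simp
      ring
    rw [e, neg_mul, neg_le_neg_iff, ← mul_div_assoc, mul_one, div_div, div_le_div_iff₀ (by linarith) (by positivity)]
    linarith
  have h5 := Finset.sum_le_sum h3
  rw [← Finset.mul_sum] at h5
  have hm0 : (0 : ℝ) ≤ m := Nat.cast_nonneg _
  nlinarith

/-- the constants -/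
lemma consts (δ : ℝ) (hδ : 0 < δ) (hδ1 : δ ≤ 1) (s : ℕ) : ∃ t J : ℕ, 3 ≤ t ∧ 1 ≤ J ∧
    (1 - Real.exp (-(3 / 4) * (s + t : ℕ))) ^ J ≤ δ / 2 ∧ (J : ℝ) * (24 / 4 ^ t) ≤ δ := by
  have hlog : 0 ≤ Real.log (2 / δ) := Real.log_nonneg (by
    rw [le_div_iff₀ hδ]; linarith)
  set K : ℝ := Real.log (2 / δ) + 1 with hK
  have hK0 : 0 < K := by linarith
  have hr : Real.exp (3 / 4) / 4 < 1 := by
    rw [div_lt_one (by norm_num)]
    have h1 : Real.exp (3 / 4) ≤ Real.exp 1 := Real.exp_le_exp.2 (by norm_num)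
    have h2 := Real.exp_one_lt_d9
    linarith
  have hr0 : 0 ≤ Real.exp (3 / 4) / 4 := by positivity
  have hlim := (tendsto_pow_atTop_nhds_zero_of_lt_one hr0 hr).const_mul (24 * K * Real.exp (3 / 4 * s))
  rw [mul_zero] at hlim
  have hev := (hlim.eventually (gt_mem_nhds hδ)).and (eventually_ge_atTop 3)
  obtain ⟨t, ht, ht3⟩ := hev.exists
  set E : ℝ := Real.exp (3 / 4 * (s + t : ℕ)) with hE
  have hE1 : 1 ≤ E := Real.one_le_exp (by positivity)
  have hq : Real.exp (-(3 / 4) * (s + t : ℕ)) = E⁻¹ := by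
    rw [hE, ← Real.exp_neg]; congr 1; ring
  obtain ⟨J, hJdef⟩ : ∃ J : ℕ, J = max ⌈E * Real.log (2 / δ)⌉₊ 1 := ⟨_, rfl⟩
  have hJ : E * Real.log (2 / δ) ≤ (J : ℝ) := by
    refine (Nat.le_ceil _).trans ?_
    exact_mod_cast (by rw [hJdef]; exact le_max_left _ _ : ⌈E * Real.log (2 / δ)⌉₊ ≤ J)
  have hE0 : 0 < E := by linarith
  have hJ2 : (J : ℝ) ≤ E * K := by
    rw [hJdef, Nat.cast_max]
    refine max_le ?_ ?_
    · have h1 := (Nat.ceil_lt_add_one (mul_nonneg hE0.le hlog)).le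
      rw [hK]; nlinarith
    · rw [hK]; push_cast; nlinarith [mul_nonneg hE0.le hlog]
  refine ⟨t, J, ht3, by rw [hJdef]; exact le_max_right _ _, ?_, ?_⟩
  · rw [hq]
    have h1 : 0 ≤ 1 - E⁻¹ := by
      have : E⁻¹ ≤ 1 := inv_le_one_of_one_le₀ hE1
      linarith
    calc (1 - E⁻¹) ^ J ≤ (Real.exp (-E⁻¹)) ^ J := by
          refine pow_le_pow_left₀ h1 ?_ J
          have := Real.add_one_le_exp (-E⁻¹)
          linarith
      _ = Real.exp (-(E⁻¹ * J)) := by
          rw [← Real.exp_nat_mul]; congr 1; ring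
      _ ≤ Real.exp (-Real.log (2 / δ)) := by
          apply Real.exp_le_exp.2
          have : Real.log (2 / δ) ≤ E⁻¹ * J := by
            rw [← div_eq_inv_mul, le_div_iff₀ hE0]; linarith
          linarith
      _ = δ / 2 := by
          rw [Real.exp_neg, Real.exp_log (by positivity), inv_div]
  · have h1 : E = Real.exp (3 / 4 * s) * Real.exp (3 / 4) ^ t := by
      rw [hE, ← Real.exp_nat_mul, ← Real.exp_add]; congr 1; push_cast; ring
    calc (J : ℝ) * (24 / 4 ^ t) ≤ (E * K) * (24 / 4 ^ t) :=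
          mul_le_mul_of_nonneg_right hJ2 (by positivity)
      _ = 24 * K * Real.exp (3 / 4 * s) * (Real.exp (3 / 4) / 4) ^ t := by
          rw [h1, div_pow]; ring
      _ ≤ δ := ht.le

/-! ### The second moment -/

open Classical in
/-- the radical of the smooth part is small -/
lemma card_sm {x y t W : ℕ} (hy : 36 ≤ y) (ht : 3 ≤ t) (hW : W ^ 2 ≤ y)
    (hrad : ∀ R : ℝ, 0 < R → (((Ioc 0 x).filter fun n => R ≤ ∑ p ∈ (primesIn 0 y).filter (fun p => p ∣ n),
      Real.log p).card : ℝ) ≤ x * ((∑ q ∈ primesIn 0 y, Real.log q / q) ^ 2 +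
        Real.log y * ∑ q ∈ primesIn 0 y, Real.log q / q) / R ^ 2)
    (hSm : ∀ n : ℕ, n ≠ 0 → (∀ d, d ^ 2 ∣ n → d ≤ W) → Sm n y ≤ W ^ 2 *
      ∏ p ∈ n.primeFactors.filter (fun p => p ≤ y), p)
    (hm : ∑ q ∈ primesIn 0 y, Real.log q / q ≤ 2 * Real.log y) :
    (((Ioc 0 x).filter fun n => (∀ d, d ^ 2 ∣ n → d ≤ W) ∧ y ^ (2 ^ t - 2) < Sm n y).card : ℝ) ≤
      24 / 4 ^ t * x := by
  classical
  have hlog : 0 < Real.log y := Real.log_pos (by exact_mod_cast (by omega : 1 < y))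
  have hT : (2 : ℝ) ^ t / 2 ≤ ((2 ^ t - 3 : ℕ) : ℝ) := by
    have h8 : 8 ≤ 2 ^ t := by
      calc 8 = 2 ^ 3 := by norm_num
        _ ≤ 2 ^ t := Nat.pow_le_pow_right (by norm_num) ht
    rw [Nat.cast_sub (by omega)]
    push_cast
    have : (8 : ℝ) ≤ 2 ^ t := by exact_mod_cast h8
    linarith
  have h8 : 8 ≤ 2 ^ t := by
    calc 8 = 2 ^ 3 := by norm_num
      _ ≤ 2 ^ t := Nat.pow_le_pow_right (by norm_num) ht
  set T1 : ℕ := 2 ^ t - 3 with hT1
  have hR : 0 < (T1 : ℝ) * Real.log y := by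
    have : (0 : ℝ) < T1 := lt_of_lt_of_le (by positivity) hT
    positivity
  have hsub : ((Ioc 0 x).filter fun n => (∀ d, d ^ 2 ∣ n → d ≤ W) ∧ y ^ (2 ^ t - 2) < Sm n y) ⊆
      (Ioc 0 x).filter fun n => (T1 : ℝ) * Real.log y ≤ ∑ p ∈ (primesIn 0 y).filter (fun p => p ∣ n),
      Real.log p := by
    intro n hn
    rw [mem_filter] at hn ⊢
    obtain ⟨h1, h2, h3⟩ := hn
    refine ⟨h1, ?_⟩
    have hn0 : n ≠ 0 := by have := (mem_Ioc.1 h1).1; omega
    have h4 := hSm n hn0 h2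
    set r := ∏ p ∈ n.primeFactors.filter (fun p => p ≤ y), p with hr
    have h5 : y ^ T1 * y < r * y := by
      calc y ^ T1 * y = y ^ (2 ^ t - 2) := by rw [← pow_succ]; congr 1; omega
        _ < Sm n y := h3
        _ ≤ W ^ 2 * r := h4
        _ ≤ y * r := Nat.mul_le_mul_right _ hW
        _ = r * y := mul_comm _ _
    have h6 : y ^ T1 < r := lt_of_mul_lt_mul_right h5 (Nat.zero_le _)
    have h7 : (y : ℝ) ^ T1 ≤ r := by exact_mod_cast h6.le
    have h8 : (T1 : ℝ) * Real.log y ≤ Real.log r := by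
      rw [← Real.log_pow]
      exact Real.log_le_log (by positivity) h7
    refine h8.trans (le_of_eq ?_)
    rw [hr]
    push_cast
    rw [Real.log_prod]
    · refine Finset.sum_congr ?_ fun _ _ => rfl
      ext p
      rw [mem_filter, mem_filter, mem_primesIn, Nat.mem_primeFactors]
      constructor
      · rintro ⟨⟨h9, h10, _⟩, h11⟩
        exact ⟨⟨⟨h9.pos, h11⟩, h9⟩, h10⟩
      · rintro ⟨⟨⟨_, h11⟩, h9⟩, h10⟩
        exact ⟨⟨h9, h10, hn0⟩, h11⟩
    · intro p hp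
      have := (Nat.prime_of_mem_primeFactors (mem_filter.1 hp).1).pos
      positivity
  have h1 : (((Ioc 0 x).filter fun n => (∀ d, d ^ 2 ∣ n → d ≤ W) ∧ y ^ (2 ^ t - 2) < Sm n y).card : ℝ) ≤
      (((Ioc 0 x).filter fun n => (T1 : ℝ) * Real.log y ≤ ∑ p ∈ (primesIn 0 y).filter (fun p => p ∣ n),
      Real.log p).card : ℝ) := by exact_mod_cast Finset.card_le_card hsub
  refine h1.trans ((hrad _ hR).trans ?_)
  set M := ∑ q ∈ primesIn 0 y, Real.log q / q with hM
  have hM0 : 0 ≤ M := Finset.sum_nonneg fun q _ => div_nonneg (Real.log_natCast_nonneg q) (Nat.cast_nonneg _)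
  have h2 : M ^ 2 + Real.log y * M ≤ 6 * Real.log y ^ 2 := by nlinarith
  have h3 : (2 : ℝ) ^ t * 2 ^ t = 4 ^ t := by rw [← mul_pow]; norm_num
  have h4 : (4 : ℝ) ^ t / 4 * Real.log y ^ 2 ≤ ((T1 : ℝ) * Real.log y) ^ 2 := by
    rw [mul_pow]
    refine mul_le_mul_of_nonneg_right ?_ (by positivity)
    have := pow_le_pow_left₀ (by positivity) hT 2
    rw [← h3]
    nlinarith
  rw [div_le_iff₀ (by positivity)]
  have hx0 : (0 : ℝ) ≤ x := Nat.cast_nonneg _
  calc (x : ℝ) * (M ^ 2 + Real.log y * M) ≤ x * (6 * Real.log y ^ 2) := mul_le_mul_of_nonneg_left h2 hx0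
    _ = 24 / 4 ^ t * x * ((4 : ℝ) ^ t / 4 * Real.log y ^ 2) := by
        field_simp
        ring
    _ ≤ 24 / 4 ^ t * x * ((T1 : ℝ) * Real.log y) ^ 2 := mul_le_mul_of_nonneg_left h4 (by positivity)

/-! ### The blocks -/

lemma mul_primesIn {a b c : ℕ} (hab : a ≤ b) (hbc : b ≤ c) :
    Pr (primesIn a b) * Pr (primesIn b c) = Pr (primesIn a c) := by
  unfold Pr
  rw [← Finset.prod_union]
  · refine Finset.prod_congr ?_ fun _ _ => rfl
    ext p
    rw [mem_union, mem_primesIn, mem_primesIn, mem_primesIn]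
    constructor
    · rintro (⟨⟨h1, h2⟩, h3⟩ | ⟨⟨h1, h2⟩, h3⟩)
      · exact ⟨⟨h1, h2.trans hbc⟩, h3⟩
      · exact ⟨⟨lt_of_le_of_lt hab h1, h2⟩, h3⟩
    · rintro ⟨⟨h1, h2⟩, h3⟩
      rcases Nat.lt_or_ge b p with h | h
      · exact Or.inr ⟨⟨h, h2⟩, h3⟩
      · exact Or.inl ⟨⟨h1, h⟩, h3⟩
  · rw [Finset.disjoint_left]
    intro p h1 h2
    have := (mem_primesIn.1 h1).1.2
    have := (mem_primesIn.1 h2).1.1
    omega

lemma prod_blocks {y : ℕ → ℕ} (hy : Monotone y) (J : ℕ) :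
    ∏ j ∈ range J, Pr (primesIn (y j) (y (j + 1))) ≤ 4 ^ y J := by
  have h1 : ∀ J, ∏ j ∈ range J, Pr (primesIn (y j) (y (j + 1))) = Pr (primesIn (y 0) (y J)) := by
    intro J
    induction J with
    | zero =>
      rw [Finset.range_zero, Finset.prod_empty]
      have : primesIn (y 0) (y 0) = ∅ := by
        rw [Finset.eq_empty_iff_forall_notMem]
        intro p hp
        have := (mem_primesIn.1 hp).1
        omega
      rw [this, Pr, Finset.prod_empty]
    | succ J ih =>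
      rw [Finset.prod_range_succ, ih, mul_primesIn (hy (Nat.zero_le _)) (hy (Nat.le_succ _))]
  rw [h1]
  refine le_trans ?_ (primorial_le_four_pow (y J))
  unfold Pr primorial
  refine Finset.prod_le_prod_of_subset_of_one_le' ?_ fun p hp _ => ?_
  · intro p hp
    have := mem_primesIn.1 hp
    rw [mem_filter, mem_range]
    exact ⟨by omega, this.2⟩
  · exact (mem_filter.1 hp).2.pos

/-- few integers have a prime factor in every block -/
lemma card_blocks {x m J : ℕ} {y : ℕ → ℕ} (hy : Monotone y) {S : ℕ → Finset ℕ}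
    (hSdef : ∀ j, S j = primesIn (y j) (y (j + 1)))
    (hV : ∀ j < J, Real.exp (-(3 / 4) * m) ≤ ∏ p ∈ S j, (1 - (p : ℝ)⁻¹))
    (hx : 4 ^ y J ≤ x) :
    (((Ioc 0 x).filter fun n => ∀ j < J, ∃ p ∈ S j, p ∣ n).card : ℝ) ≤
      2 * x * (1 - Real.exp (-(3 / 4) * m)) ^ J := by
  have hS : ∀ j, ∀ p ∈ S j, p.Prime := fun j p hp => by
    rw [hSdef] at hp
    exact (mem_primesIn.1 hp).2
  have hd : ∀ i j, i < j → ∀ p ∈ S i, p ∉ S j := by
    intro i j hij p hp hp'
    rw [hSdef] at hp hp'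
    have h1 := (mem_primesIn.1 hp).1.2
    have h2 := (mem_primesIn.1 hp').1.1
    have h3 := hy (show i + 1 ≤ j by omega)
    omega
  obtain ⟨h1, h2⟩ := count_all hS hd J
  have hQ4 : ∏ j ∈ range J, Pr (S j) ≤ 4 ^ y J := by
    simp only [hSdef]
    exact prod_blocks hy J
  set Q := ∏ j ∈ range J, Pr (S j) with hQ
  have hQpos : 0 < Q := Finset.prod_pos fun j _ => Pr_pos (hS j)
  have hQx : Q ≤ x := hQ4.trans hx
  refine (count_le_of_per hQpos h1 x hQx).trans ?_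
  rw [h2]
  have hx0 : (0 : ℝ) ≤ 2 * x := by positivity
  refine mul_le_mul_of_nonneg_left ?_ hx0
  calc ∏ j ∈ range J, (1 - ∏ p ∈ S j, (1 - (p : ℝ)⁻¹))
      ≤ ∏ j ∈ range J, (1 - Real.exp (-(3 / 4) * m)) := by
        refine Finset.prod_le_prod (fun j _ => ?_) (fun j hj => ?_)
        · have : ∏ p ∈ S j, (1 - (p : ℝ)⁻¹) ≤ 1 := by
            refine Finset.prod_le_one (fun p hp => ?_) (fun p _ => ?_)
            · have : (1 : ℝ) ≤ p := by exact_mod_cast (hS j p hp).one_lt.le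
              have := inv_le_one_of_one_le₀ this
              linarith
            · have : (0 : ℝ) ≤ (p : ℝ)⁻¹ := by positivity
              linarith
          linarith
        · have := hV j (mem_range.1 hj)
          linarith
    _ = _ := by rw [Finset.prod_const, Finset.card_range]

/-- there is a prime factor in every block -/
def Hit (J : ℕ) (y : ℕ → ℕ) (n : ℕ) : Prop :=
  ∀ j < J, ∃ p ∈ primesIn (y j) (y (j + 1)), p ∣ n

lemma card_hit {x m J : ℕ} {y : ℕ → ℕ} (hy : Monotone y)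
    (hV : ∀ j < J, Real.exp (-(3 / 4) * m) ≤ ∏ p ∈ primesIn (y j) (y (j + 1)), (1 - (p : ℝ)⁻¹))
    (hx : 4 ^ y J ≤ x) {F : Finset ℕ} (hF : ∀ n ∈ F, n ∈ Ioc 0 x ∧ Hit J y n) :
    (F.card : ℝ) ≤ 2 * x * (1 - Real.exp (-(3 / 4) * m)) ^ J := by
  refine le_trans ?_ (card_blocks hy (S := fun j => primesIn (y j) (y (j + 1))) (fun _ => rfl) hV hx)
  refine Nat.cast_le.2 (Finset.card_le_card fun n hn => ?_)
  rw [mem_filter]
  exact hF n hn

/-! ### The cut -/

/-- `n` has a cut with the margin `(k + Omega + 2) ^ c`. -/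
def NiceC (c n : ℕ) : Prop :=
  ∃ k m, SQ3.CutE n k m ∧ (∀ p ∈ m.primeFactors, (k + n.primeFactorsList.length + 2) ^ c < p) ∧
    (k + n.primeFactorsList.length) ^ c ≤ Nat.log 2 n

theorem NiceC.mono {c c' n : ℕ} (hcc : c ≤ c') (hn : n ≠ 0) (h : NiceC c' n) : NiceC c n := by
  obtain ⟨k, m, h1, h2, h3⟩ := h
  have hk : 0 < k := Nat.pos_of_ne_zero fun h0 => hn (by rw [h1.eq, h0, zero_mul])
  refine ⟨k, m, h1, fun p hp => lt_of_le_of_lt (Nat.pow_le_pow_right (by omega) hcc) (h2 p hp),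
    (Nat.pow_le_pow_right (by omega) hcc).trans h3⟩

theorem niceC_of {s n V t L y Z : ℕ} (hs : 4 ≤ s) (ht : 3 ≤ t) (hn : n ≠ 0) (hV4 : 36 ≤ V) (hVy : V ≤ y)
    (h1 : ∀ p ∈ n.primeFactors, V < p → ¬ p ^ 2 ∣ n)
    (h2 : ∀ q ∈ n.primeFactors, ∀ p ∈ n.primeFactors, V < q → ¬ q ∣ p - 1)
    (h4 : ∀ p ∈ n.primeFactors, V < p → ∀ d, d ∣ n → d ≡ 1 [MOD p] → (∀ q ∈ d.primeFactors, q < p) →
      d = 1)
    (h5 : Sm n y ≤ y ^ (2 ^ t - 2)) (h6 : ∀ p ∈ n.primeFactors, y < p → y ^ 2 ^ (s + t) < p)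
    (hyZ : y ^ 2 ^ (s + t) ≤ Z)
    (hΩ : n.primeFactorsList.length ≤ 3 * L) (hL : 3 * L + 2 ≤ V)
    (hW : (Z + 3 * L) ^ 2 ^ s ≤ Nat.log 2 n) : NiceC (2 ^ s) n := by
  have h8 : 8 ≤ 2 ^ t := by
    calc 8 = 2 ^ 3 := by norm_num
      _ ≤ 2 ^ t := Nat.pow_le_pow_right (by norm_num) ht
  have hy1 : 1 ≤ y := by omega
  have hK : Sm n y + n.primeFactorsList.length + 2 ≤ y ^ 2 ^ t := by
    have e : y ^ 2 ^ t = y ^ (2 ^ t - 2) * (y * y) := by
      rw [← sq, ← pow_add]; congr 1; omega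
    have h9 : 1 ≤ y ^ (2 ^ t - 2) := Nat.one_le_pow _ _ hy1
    rw [e]
    have e1 : y + 1 ≤ y * y := by nlinarith
    have e2 := Nat.mul_le_mul_left (y ^ (2 ^ t - 2)) e1
    have e3 : y ≤ y ^ (2 ^ t - 2) * y := Nat.le_mul_of_pos_left _ (by omega)
    rw [mul_add, mul_one] at e2
    omega
  have h4k : 4 * Sm n y ≤ y ^ 2 ^ t := by
    have e : y ^ 2 ^ t = y ^ (2 ^ t - 2) * (y * y) := by
      rw [← sq, ← pow_add]; congr 1; omega
    rw [e]
    have e1 : 4 ≤ y * y := by nlinarith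
    have e2 := Nat.mul_le_mul_left (y ^ (2 ^ t - 2)) e1
    omega
  have hpow : (y ^ 2 ^ t) ^ 2 ^ s = y ^ 2 ^ (s + t) := by
    rw [← pow_mul, ← pow_add, add_comm t s]
  have hle1 : y ^ 2 ^ t ≤ y ^ 2 ^ (s + t) := Nat.pow_le_pow_right hy1
    (Nat.pow_le_pow_right (by norm_num) (by omega))
  have h16 : 16 ≤ 2 ^ s := by
    calc 16 = 2 ^ 4 := by norm_num
      _ ≤ 2 ^ s := Nat.pow_le_pow_right (by norm_num) hs
  set k := Sm n y with hk
  set m := Ro n y with hm
  have hkm : k * m = n := Sm_mul_Ro hn y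
  have hmem : ∀ p ∈ m.primeFactors, p ∈ n.primeFactors ∧ V < p ∧ y ^ 2 ^ (s + t) < p := by
    intro p hp
    obtain ⟨h3, h4'⟩ := mem_primeFactors_Ro hn hp
    exact ⟨h3, by omega, h6 p h3 h4'⟩
  have hbig : ∀ p ∈ m.primeFactors, (k + n.primeFactorsList.length + 2) ^ 2 ^ s < p := by
    intro p hp
    refine lt_of_le_of_lt ?_ (hmem p hp).2.2
    rw [← hpow]
    exact Nat.pow_le_pow_left hK _
  refine ⟨k, m, ⟨⟨hkm.symm, coprime_Sm_Ro hn y, squarefree_Ro hn (fun p hp h => h1 p hp (by omega)),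
    fun p hp => ?_, fun p hp => ?_, fun p hp q hq => ?_, fun p hp => ?_⟩, fun p hp => ?_⟩, hbig, ?_⟩
  · have := (hmem p hp).2.2
    omega
  · have := (hmem p hp).2.1
    omega
  · exact h2 p (hmem p hp).1 q hq (hmem p hp).2.1
  · exact h4 p (hmem p hp).1 (hmem p hp).2.1
  · refine lt_of_le_of_lt ?_ (hbig p hp)
    calc (n.primeFactorsList.length + 2) ^ 10 ≤ (k + n.primeFactorsList.length + 2) ^ 10 :=
          Nat.pow_le_pow_left (by omega) 10
      _ ≤ (k + n.primeFactorsList.length + 2) ^ 2 ^ s := Nat.pow_le_pow_right (by omega) (by omega)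
  · refine le_trans (Nat.pow_le_pow_left ?_ _) hW
    omega

open Classical in
theorem niceCS_of (hM : MertapStmt) (hR : RecgStmt) (hB : BtsumStmt) :
    ∀ (c : ℕ) (ε : ℝ), 0 < ε → ∃ x₀ : ℕ, ∀ x ≥ x₀,
      (((Finset.Icc 1 x).filter (fun n => ¬ NiceC c n)).card : ℝ) ≤ ε * x := by
  classical
  intro c ε hε
  obtain ⟨δ, hδ⟩ : ∃ X : ℝ, X = min (ε / 12) 1 := ⟨_, rfl⟩
  have hδ0 : 0 < δ := by rw [hδ]; exact lt_min (by positivity) one_pos
  have hδ1 : δ ≤ 1 := by rw [hδ]; exact min_le_right _ _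
  have hδε : 12 * δ ≤ ε := by
    have : δ ≤ ε / 12 := by rw [hδ]; exact min_le_left _ _
    linarith
  obtain ⟨V₀, hV₀⟩ := prod_ge hM hR
  obtain ⟨C, hC0, hC⟩ := card_bt hB
  obtain ⟨C', hC'0, hC'⟩ := mert hM
  -- constants
  obtain ⟨s, hs⟩ : ∃ X : ℕ, X = c + 4 := ⟨_, rfl⟩
  have hcs : c ≤ 2 ^ s := by
    have h1 : c < 2 ^ c := Nat.lt_two_pow_self
    have h2 : 2 ^ c ≤ 2 ^ s := Nat.pow_le_pow_right (by norm_num) (by omega)
    omega
  obtain ⟨t, J, ht3, hJ1, hJa, hJb⟩ := consts δ hδ0 hδ1 s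
  obtain ⟨T₀, hT₀⟩ := exists_nat_ge (6 / δ)
  obtain ⟨T, hT⟩ : ∃ X : ℕ, X = T₀ + 1 := ⟨_, rfl⟩
  obtain ⟨W₀, hW₀⟩ := exists_nat_ge (1 / δ)
  obtain ⟨W, hW⟩ : ∃ X : ℕ, X = W₀ + 1 := ⟨_, rfl⟩
  obtain ⟨k₀, hk₀⟩ := exists_nat_ge (4 / δ)
  obtain ⟨M, hMdef⟩ : ∃ X : ℕ, X = 2 ^ (s + t) := ⟨_, rfl⟩
  have hM1 : 1 ≤ M := by rw [hMdef]; exact Nat.one_le_two_pow
  obtain ⟨A, hA⟩ : ∃ X : ℕ, X = 20 * M ^ J := ⟨_, rfl⟩
  obtain ⟨B, hBdef⟩ : ∃ X : ℕ, X = (A + 1) * 2 ^ s + A + 2 := ⟨_, rfl⟩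
  obtain ⟨N, hN⟩ : ∃ X : ℕ, X = B + A + 1 := ⟨_, rfl⟩
  obtain ⟨L₀, hL₀⟩ := exists_nat_ge (max (max ((3 + C + (T + 1)) / δ) (Real.exp C'))
    ((k₀ + 1 : ℕ) + 5 + V₀ + (W ^ 2 : ℕ)))
  obtain ⟨ℓ₂, hℓ₂⟩ := ev_ell L₀
  obtain ⟨ℓ₃, hℓ₃⟩ := ev_pow N
  obtain ⟨x₀, hx₀⟩ := ev_ell (max ℓ₂ (max ℓ₃ 3))
  refine ⟨max x₀ 2, fun x hx => ?_⟩
  have hxx : x₀ ≤ x := (le_max_left _ _).trans hx
  have hx2 : 2 ≤ x := (le_max_right _ _).trans hx
  have hx0 : (0 : ℝ) < x := by exact_mod_cast (by omega : 0 < x)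
  obtain ⟨ℓ, hℓ⟩ : ∃ X : ℕ, X = ell x := ⟨_, rfl⟩
  have hall := hx₀ x hxx
  rw [← hℓ] at hall
  have g2 : ℓ₂ ≤ ℓ := (le_max_left _ _).trans hall
  have g3 : ℓ₃ ≤ ℓ := ((le_max_left _ _).trans (le_max_right _ _)).trans hall
  have g4 : 3 ≤ ℓ := ((le_max_right _ _).trans (le_max_right _ _)).trans hall
  obtain ⟨L, hL⟩ : ∃ X : ℕ, X = ell ℓ := ⟨_, rfl⟩
  have hLL : L₀ ≤ L := by rw [hL]; exact hℓ₂ ℓ g2
  have hLN : L ^ N ≤ ℓ := by rw [hL]; exact hℓ₃ ℓ g3
  have hLr : max (max ((3 + C + (T + 1)) / δ) (Real.exp C')) ((k₀ + 1 : ℕ) + 5 + V₀ + (W ^ 2 : ℕ)) ≤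
      (L : ℝ) := hL₀.trans (by exact_mod_cast hLL)
  have e1 : (3 + C + (T + 1)) / δ ≤ (L : ℝ) := ((le_max_left _ _).trans (le_max_left _ _)).trans hLr
  have e2 : Real.exp C' ≤ (L : ℝ) := ((le_max_right _ _).trans (le_max_left _ _)).trans hLr
  have e3 : k₀ + 1 + 5 + V₀ + W ^ 2 ≤ L := by
    have : (((k₀ + 1 + 5 + V₀ + W ^ 2 : ℕ)) : ℝ) ≤ L := by
      refine le_trans ?_ ((le_max_right _ _).trans hLr)
      push_cast
      linarith
    exact_mod_cast this
  have hL5 : 6 ≤ L := by omega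
  have hLpos : (0 : ℝ) < L := by exact_mod_cast (by omega : 0 < L)
  have hLℓ : L ≤ ℓ := (Nat.le_self_pow (by omega) L).trans hLN
  have hℓpos : (0 : ℝ) < ℓ := by exact_mod_cast (by omega : 0 < ℓ)
  have hδL : 3 + C + (T + 1) ≤ δ * L := by rwa [div_le_iff₀' hδ0] at e1
  have hδℓ : 3 + C + (T + 1) ≤ δ * ℓ :=
    hδL.trans (mul_le_mul_of_nonneg_left (by exact_mod_cast hLℓ) hδ0.le)
  have hTr : (0 : ℝ) < T := by exact_mod_cast (by omega : 0 < T)
  have hδT : 6 ≤ δ * T := by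
    rw [div_le_iff₀' hδ0] at hT₀
    have : (T : ℝ) = T₀ + 1 := by rw [hT]; push_cast; ring
    rw [this, mul_add, mul_one]; linarith
  have hδk : 4 ≤ δ * (k₀ + 1 : ℕ) := by
    rw [div_le_iff₀' hδ0] at hk₀
    push_cast
    rw [mul_add, mul_one]; linarith
  have hδW : 1 ≤ δ * W := by
    rw [div_le_iff₀' hδ0] at hW₀
    have : (W : ℝ) = W₀ + 1 := by rw [hW]; push_cast; ring
    rw [this, mul_add, mul_one]; linarith
  have hW1 : 1 ≤ W := by omega
  have hWr : (0 : ℝ) < W := by exact_mod_cast (by omega : 0 < W)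
  have hC'L : C' ≤ Real.log L := by rwa [Real.le_log_iff_exp_le hLpos]
  have hC'ℓ : C' ≤ Real.log ℓ := hC'L.trans (Real.log_le_log hLpos (by exact_mod_cast hLℓ))
  obtain ⟨V, hV⟩ : ∃ X : ℕ, X = L ^ 20 := ⟨_, rfl⟩
  have hV2 : L ^ 2 ≤ V := by rw [hV]; exact Nat.pow_le_pow_right (by omega) (by norm_num)
  obtain ⟨Y, hY⟩ : ∃ X : ℕ, X = ℓ ^ 2 := ⟨_, rfl⟩
  obtain ⟨y, hydef⟩ : ∃ X : ℕ → ℕ, X = fun j => V ^ M ^ j := ⟨_, rfl⟩
  obtain ⟨Z, hZ⟩ : ∃ X : ℕ, X = y J := ⟨_, rfl⟩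
  have hLV : L ≤ V := by rw [hV]; exact Nat.le_self_pow (by norm_num) L
  have hV36 : 36 ≤ V := le_trans (le_trans (by norm_num : 36 ≤ 6 ^ 2) (Nat.pow_le_pow_left hL5 2)) hV2
  have hy0 : y 0 = V := by rw [hydef]; simp
  have hysucc : ∀ j, y (j + 1) = y j ^ 2 ^ (s + t) := by
    intro j
    rw [hydef]
    simp only
    rw [← hMdef, ← pow_mul, ← pow_succ]
  have hymono : Monotone y := by
    intro i j hij
    rw [hydef]
    exact Nat.pow_le_pow_right (by omega) (Nat.pow_le_pow_right hM1 hij)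
  have hVy : ∀ j, V ≤ y j := fun j => by rw [← hy0]; exact hymono (Nat.zero_le j)
  have hmar : 3 * L + 2 ≤ V := by
    refine le_trans ?_ hV2
    have h9 : 6 * L ≤ L ^ 2 := by rw [pow_two]; exact Nat.mul_le_mul_right L hL5
    linarith
  have hYℓ : ℓ ≤ Y := by rw [hY]; exact Nat.le_self_pow (by norm_num) ℓ
  have hVr : (L : ℝ) ^ 2 ≤ (V : ℝ) := by exact_mod_cast hV2
  have hYr : (Y : ℝ) = (ℓ : ℝ) ^ 2 := by rw [hY]; push_cast; ring
  have hVpos : (0 : ℝ) < V := by exact_mod_cast (by omega : 0 < V)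
  have hYpos : (0 : ℝ) < Y := by rw [hYr]; positivity
  have hZA : Z = L ^ A := by rw [hZ, hydef]; simp only; rw [hV, ← pow_mul, hA]
  have hxℓ : x < 2 ^ ℓ := by rw [hℓ]; exact lt_two_pow_ell x
  have hℓL : ℓ < 2 ^ L := by rw [hL]; exact lt_two_pow_ell ℓ
  have hℓlog : ℓ = Nat.log 2 x + 2 := by rw [hℓ]; unfold ell; rfl
  have hℓx : ℓ ≤ x := by
    have h1 : Nat.log 2 x < x := Nat.log_lt_self 2 (by omega)
    rw [hℓ]; unfold ell
    have h3 : 2 ^ 2 ≤ x ∨ x < 4 := by omega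
    rcases h3 with h3 | h3
    · have h4 : Nat.log 2 x + 2 ≤ x := by
        have h5 : Nat.log 2 x < x - 1 := by
          refine Nat.log_lt_of_lt_pow (by omega) ?_
          have : ∀ y : ℕ, 3 ≤ y → y + 1 < 2 ^ y := by
            intro y hy
            induction y, hy using Nat.le_induction with
            | base => norm_num
            | succ y hy ih => rw [pow_succ]; omega
          have := this (x - 1) (by omega)
          omega
        omega
      exact h4
    · exfalso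
      have h5 : ell x ≤ 3 + 0 := by
        unfold ell
        have : Nat.log 2 x < 2 := Nat.log_lt_of_lt_pow (by omega) (by omega)
        omega
      omega
  have hA1 : 1 ≤ A := by
    rw [hA]
    have : 0 < M ^ J := Nat.pow_pos (by omega)
    omega
  have hZ6 : Z * 6 ≤ ℓ := by
    rw [hZA]
    refine (Nat.mul_le_mul_left _ hL5).trans ?_
    rw [← pow_succ]
    exact (Nat.pow_le_pow_right (by omega) (by omega)).trans hLN
  have hZℓ : Z ≤ ℓ := by omega
  have hZx : Z ≤ x := hZℓ.trans hℓx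
  have hVZ' : V ≤ Z := by rw [hZ]; exact hVy J
  have h4Z : 4 ^ y J ≤ x := by
    rw [← hZ]
    have h1 : 2 * Z ≤ Nat.log 2 x := by omega
    calc 4 ^ Z = 2 ^ (2 * Z) := by rw [pow_mul]; norm_num
      _ ≤ 2 ^ Nat.log 2 x := Nat.pow_le_pow_right (by norm_num) h1
      _ ≤ x := Nat.pow_log_le_self 2 (by omega)
  -- the exceptional sets
  set F1 := (Ioc 0 x).filter fun n => ∃ p ∈ Ioc W x, p ^ 2 ∣ n with hF1
  set F2 := (Ioc 0 x).filter fun n => ∃ q ∈ n.primeFactors, ∃ p ∈ n.primeFactors,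
    Y < q ∧ q ∣ p - 1 with hF2
  set F3 := (Ioc 0 x).filter fun n => ∃ q, V < q ∧ ∃ k ∈ Ioc 0 Y, q * (k * q + 1) ∣ n with hF3
  set F4 := (Ioc 0 x).filter fun n => ∃ q ∈ n.primeFactors, ∃ p ∈ n.primeFactors,
      V < q ∧ q ^ 2 < p ∧ q ∣ p - 1 with hF4
  set F5 := (Ioc 0 x).filter fun n => T * Real.log ℓ ≤ Real.log (Sm n Y : ℝ) with hF5
  set F6 := (Ioc 0 x).filter fun n => ∃ q, Y < q ∧ ∃ k ∈ Ioc 0 x, q * (k * q + 1) ∣ n with hF6
  set F7 := (Ioc 0 x).filter fun n => ∃ q, V < q ∧ ∃ k ∈ Ioc 0 (ℓ ^ T), q * (k * q + 1) ∣ n with hF7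
  set F8 := (range J).biUnion fun j => (Ioc 0 x).filter fun n => (∀ d, d ^ 2 ∣ n → d ≤ W) ∧
    y j ^ (2 ^ t - 2) < Sm n (y j) with hF8
  set F9 := (Ioc 0 x).filter fun n => Hit J y n with hF9
  set F10 := (Ioc 0 x).filter fun n => n * n ≤ x with hF10
  set F11 := (Ioc 0 x).filter fun n => Y ≤ 2 ^ n.primeFactors.card with hF11
  set F12 := (Ioc 0 x).filter fun n => n.primeFactors.card + (k₀ + 1) ≤ n.primeFactorsList.length
    with hF12
  have hdiv : ∀ a b : ℝ, a ≤ 3 + C + (T + 1) → 0 < b → 3 + C + (T + 1) ≤ δ * b →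
      (x : ℝ) * (a * b) / b ^ 2 ≤ δ * x := by
    intro a b h1 h2 h3
    have h4 : (x : ℝ) * (a * b) / b ^ 2 = x * (a / b) := by field_simp
    rw [h4, mul_comm δ]
    refine mul_le_mul_of_nonneg_left ?_ hx0.le
    rw [div_le_iff₀ h2]
    linarith
  have hT1 : (0 : ℝ) ≤ T := hTr.le
  have c1 : (F1.card : ℝ) ≤ δ * x := by
    refine (Pool.Agent.Lib.MP_688fd0_co.DEN.card_sq x W (by omega)).trans ?_
    rw [div_le_iff₀ hWr]
    have h9 := mul_le_mul_of_nonneg_left hδW hx0.le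
    linarith
  have c2 : (F2.card : ℝ) ≤ δ * x := by
    refine (bad1 x Y (by omega)).trans ?_
    rw [hYr, ← hℓ]
    have h1 := hdiv 1 ℓ (by linarith) hℓpos hδℓ
    rwa [one_mul] at h1
  have c3 : (F3.card : ℝ) ≤ δ * x := by
    refine (card_qk x V Y (by omega)).trans ?_
    have hellY : (ell Y : ℝ) ≤ 3 * L := by
      have h1 : Y < 2 ^ (2 * L) := by
        rw [hY, mul_comm, pow_mul]
        exact Nat.pow_lt_pow_left hℓL (by norm_num)
      have h2 := ell_le_of_lt (by omega) h1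
      have h3 : ell Y ≤ 3 * L := by omega
      exact_mod_cast h3
    refine le_trans ?_ (hdiv 3 L (by linarith) hLpos hδL)
    gcongr
  have c4 : (F4.card : ℝ) ≤ δ * x := by
    refine (hC x V L (by omega) ?_).trans ?_
    · calc x ≤ 2 ^ ℓ := hxℓ.le
        _ ≤ 2 ^ 2 ^ L := Nat.pow_le_pow_right (by norm_num) hℓL.le
        _ ≤ 4 ^ 2 ^ L := Nat.pow_le_pow_left (by norm_num) _
    · refine le_trans ?_ (hdiv C L (by linarith) hLpos hδL)
      gcongr
  have hlogℓ : 0 < Real.log ℓ := Real.log_pos (by exact_mod_cast (by omega : 1 < ℓ))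
  have c5 : (F5.card : ℝ) ≤ δ * x := by
    have hYlog : Real.log Y + C' ≤ 3 * Real.log ℓ := by
      rw [hYr, Real.log_pow]
      push_cast
      linarith
    refine (card_smooth_ge x Y (T * Real.log ℓ) (by positivity)).trans ?_
    have h1 := (hC' Y (by omega)).trans hYlog
    rw [div_le_iff₀ (by positivity)]
    calc 2 * (x : ℝ) * ∑ q ∈ primesIn 0 Y, Real.log q / q ≤ 2 * x * (3 * Real.log ℓ) :=
          mul_le_mul_of_nonneg_left h1 (by positivity)
      _ = 6 * (x * Real.log ℓ) := by ring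
      _ ≤ (δ * T) * (x * Real.log ℓ) := mul_le_mul_of_nonneg_right hδT (by positivity)
      _ = δ * x * (T * Real.log ℓ) := by ring
  have c6 : (F6.card : ℝ) ≤ δ * x := by
    refine (card_qk x Y x (by omega)).trans ?_
    rw [hYr, ← hℓ]
    have h1 := hdiv 1 ℓ (by linarith) hℓpos hδℓ
    rwa [one_mul] at h1
  have c7 : (F7.card : ℝ) ≤ δ * x := by
    refine (card_qk x V (ℓ ^ T) (by omega)).trans ?_
    have h1 : ell (ℓ ^ T) ≤ (T + 1) * L := by
      have h2 : ℓ ^ T < 2 ^ (L * T + 1) := by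
        calc ℓ ^ T ≤ (2 ^ L) ^ T := Nat.pow_le_pow_left hℓL.le T
          _ = 2 ^ (L * T) := by rw [pow_mul]
          _ < 2 ^ (L * T + 1) := Nat.pow_lt_pow_right (by norm_num) (by omega)
      have h3 := ell_le_of_lt (by omega) h2
      have h9 : (T + 1) * L = L * T + L := by ring
      rw [h9]; linarith
    have h1' : (ell (ℓ ^ T) : ℝ) ≤ (T + 1) * L := by exact_mod_cast h1
    refine le_trans ?_ (hdiv (T + 1) L (by linarith) hLpos hδL)
    gcongr
  have c8 : (F8.card : ℝ) ≤ δ * x := by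
    have h1 : ∀ j ∈ range J, (((Ioc 0 x).filter fun n => (∀ d, d ^ 2 ∣ n → d ≤ W) ∧
        y j ^ (2 ^ t - 2) < Sm n (y j)).card : ℝ) ≤ 24 / 4 ^ t * x := by
      intro j _
      have hVj := hVy j
      refine card_sm (by omega) ht3 (by omega) (fun R hR' => H16.card_rad x (y j) R hR' (by omega))
        (fun n hn h => H16.Sm_le_rad n (y j) W hn h) ?_
      refine (hC' (y j) (by omega)).trans ?_
      have : Real.log L ≤ Real.log (y j) := Real.log_le_log hLpos (by exact_mod_cast hLV.trans hVj)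
      linarith
    have h2 : (F8.card : ℝ) ≤ ∑ j ∈ range J, (((Ioc 0 x).filter fun n =>
        (∀ d, d ^ 2 ∣ n → d ≤ W) ∧ y j ^ (2 ^ t - 2) < Sm n (y j)).card : ℝ) := by
      rw [hF8]
      exact_mod_cast Finset.card_biUnion_le
    refine h2.trans ((Finset.sum_le_sum h1).trans ?_)
    rw [Finset.sum_const, Finset.card_range, nsmul_eq_mul, ← mul_assoc]
    exact mul_le_mul_of_nonneg_right hJb hx0.le
  have c9 : (F9.card : ℝ) ≤ δ * x := by
    have h1 := card_hit (x := x) (m := s + t) (J := J) hymono (fun j _ => by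
        have h2 := hV₀ (y j) (s + t) ((by omega : V₀ ≤ V).trans (hVy j)) (by omega)
        rw [← hysucc] at h2
        exact h2) h4Z (F := F9) (fun n hn => mem_filter.1 hn)
    refine h1.trans ?_
    calc 2 * (x : ℝ) * (1 - Real.exp (-(3 / 4) * (s + t : ℕ))) ^ J ≤ 2 * x * (δ / 2) :=
          mul_le_mul_of_nonneg_left hJa (by positivity)
      _ = δ * x := by ring
  have c10 : (F10.card : ℝ) ≤ δ * x := by
    refine (Pool.Agent.Lib.MP_688fd0_co.DEN.card_small x).trans ?_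
    have h1 : (L : ℝ) ≤ Real.sqrt x := by
      refine Real.le_sqrt_of_sq_le ?_
      have h2 : V ≤ x := hVZ'.trans hZx
      exact_mod_cast hV2.trans h2
    have h2 : (1 : ℝ) ≤ δ * Real.sqrt x := by
      have := mul_le_mul_of_nonneg_left h1 hδ0.le
      linarith
    calc Real.sqrt x = 1 * Real.sqrt x := (one_mul _).symm
      _ ≤ (δ * Real.sqrt x) * Real.sqrt x := mul_le_mul_of_nonneg_right h2 (Real.sqrt_nonneg _)
      _ = δ * (Real.sqrt x * Real.sqrt x) := by ring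
      _ = δ * x := by rw [Real.mul_self_sqrt hx0.le]
  have c11 : (F11.card : ℝ) ≤ δ * x := by
    refine (bad2 x Y (by omega)).trans ?_
    rw [hYr, ← hℓ]
    have h1 := hdiv 1 ℓ (by linarith) hℓpos hδℓ
    rwa [one_mul] at h1
  have c12 : (F12.card : ℝ) ≤ δ * x := by
    refine (Pool.Agent.Lib.MP_688fd0_co.OSF.H23.bad6 x (k₀ + 1) (by omega)).trans ?_
    rw [div_le_iff₀ (by positivity)]
    calc 4 * (x : ℝ) ≤ (δ * (k₀ + 1 : ℕ)) * x := mul_le_mul_of_nonneg_right hδk hx0.le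
      _ = δ * x * (k₀ + 1 : ℕ) := by ring
  -- inclusion
  have hsub : (Icc 1 x).filter (fun n => ¬ NiceC c n) ⊆
      F1 ∪ (F2 ∪ (F3 ∪ (F4 ∪ (F5 ∪ (F6 ∪ (F7 ∪ (F8 ∪ (F9 ∪ (F10 ∪ (F11 ∪ F12)))))))))) := by
    intro n hn
    rw [mem_filter] at hn
    obtain ⟨hn0, hnice⟩ := hn
    have hn0' := mem_Icc.1 hn0
    have hnI : n ∈ Ioc 0 x := by rw [mem_Ioc]; omega
    have hnz : n ≠ 0 := by omega
    by_contra hcon
    simp only [mem_union, not_or] at hcon
    obtain ⟨n1, n2, n3, n4, n5, n6, n7, n8, n9, n10, n11, n12⟩ := hcon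
    rw [hF1, mem_filter] at n1
    rw [hF2, mem_filter] at n2
    rw [hF3, mem_filter] at n3
    rw [hF4, mem_filter] at n4
    rw [hF5, mem_filter] at n5
    rw [hF6, mem_filter] at n6
    rw [hF7, mem_filter] at n7
    rw [hF8, mem_biUnion] at n8
    rw [hF9, mem_filter] at n9
    rw [hF10, mem_filter] at n10
    rw [hF11, mem_filter] at n11
    rw [hF12, mem_filter] at n12
    apply hnice
    refine NiceC.mono hcs hnz ?_
    -- squares
    have hsq : ∀ d, d ^ 2 ∣ n → d ≤ W := by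
      intro d hd
      by_contra h
      have hdn : d ≤ n := by
        have hd0 : d ≠ 0 := by omega
        calc d ≤ d ^ 2 := Nat.le_self_pow (by norm_num) d
          _ ≤ n := Nat.le_of_dvd (by omega) hd
      exact n1 ⟨hnI, d, mem_Ioc.2 ⟨by omega, hdn.trans hn0'.2⟩, hd⟩
    -- the gap
    obtain ⟨j, hjJ, hj⟩ : ∃ j < J, ∀ p ∈ primesIn (y j) (y (j + 1)), ¬ p ∣ n := by
      by_contra h
      push Not at h
      exact n9 ⟨hnI, h⟩
    have hyj : y j ^ 2 ^ (s + t) ≤ Z := by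
      rw [← hysucc, hZ]
      exact hymono (by omega)
    refine niceC_of (s := s) (t := t) (L := L) (V := V) (y := y j) (Z := Z) (by omega) ht3 hnz hV36
      (hVy j) ?_ ?_ ?_ ?_ ?_ hyj ?_ hmar ?_
    · -- squares
      intro p hp hVp hd
      have h1 := hsq p hd
      have h2 : W ≤ W ^ 2 := Nat.le_self_pow (by norm_num) W
      omega
    · -- pairs
      intro q hq p hp hVq hd
      have hqp := Nat.prime_of_mem_primeFactors hq
      have hpp := Nat.prime_of_mem_primeFactors hp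
      rcases Nat.lt_or_ge Y q with hYq | hqY
      · exact n2 ⟨hnI, q, hq, p, hp, hYq, hd⟩
      rcases Nat.lt_or_ge (q ^ 2) p with hpq | hpq
      · exact n4 ⟨hnI, q, hq, p, hp, hVq, hpq, hd⟩
      · obtain ⟨k, hk⟩ := hd
        have hp1 : p = k * q + 1 := by
          have := hpp.two_le
          rw [mul_comm] at hk
          omega
        have hk0 : 0 < k := by
          rcases Nat.eq_zero_or_pos k with h | h
          · subst h
            have := hpp.two_le
            omega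
          · exact h
        have hne : q ≠ p := by
          intro h
          have : q ≤ k * q := Nat.le_mul_of_pos_left q hk0
          omega
        have hcop : Nat.Coprime q p := (Nat.coprime_primes hqp hpp).mpr hne
        have hkq : k ≤ q := by
          have h1 : k * q ≤ q * q := by rw [← sq]; omega
          exact Nat.le_of_mul_le_mul_right h1 hqp.pos
        refine n3 ⟨hnI, q, hVq, k, mem_Ioc.2 ⟨hk0, hkq.trans hqY⟩, ?_⟩
        rw [← hp1]
        exact hcop.mul_dvd_of_dvd_of_dvd (Nat.dvd_of_mem_primeFactors hq) (Nat.dvd_of_mem_primeFactors hp)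
    · -- Sylow
      intro p hp hVp d hd hdm hdp
      have hpp := Nat.prime_of_mem_primeFactors hp
      by_contra hd1
      have hd0 : d ≠ 0 := by rintro rfl; exact hnz (Nat.eq_zero_of_zero_dvd hd)
      have hd2 : 1 < d := by omega
      have hdvd : p ∣ d - 1 := (Nat.modEq_iff_dvd' hd2.le).1 hdm.symm
      obtain ⟨k, hk⟩ := hdvd
      have hdk : d = k * p + 1 := by
        rw [mul_comm] at hk
        omega
      have hk0 : 0 < k := by
        rcases Nat.eq_zero_or_pos k with h | h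
        · subst h; omega
        · exact h
      have hcop : Nat.Coprime p d := by
        rw [hpp.coprime_iff_not_dvd, hdk]
        intro h
        have := (Nat.dvd_add_right (Dvd.intro_left k rfl)).1 h
        exact hpp.one_lt.ne' (Nat.dvd_one.1 this)
      have hmul : p * (k * p + 1) ∣ n := by
        rw [← hdk]
        exact hcop.mul_dvd_of_dvd_of_dvd (Nat.dvd_of_mem_primeFactors hp) hd
      have hkd : k ≤ d := by
        have : k ≤ k * p := Nat.le_mul_of_pos_right k hpp.pos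
        omega
      rcases Nat.lt_or_ge Y p with hYp | hpY
      · refine n6 ⟨hnI, p, hYp, k, mem_Ioc.2 ⟨hk0, ?_⟩, hmul⟩
        exact hkd.trans ((Nat.le_of_dvd (by omega) hd).trans hn0'.2)
      · refine n7 ⟨hnI, p, hVp, k, mem_Ioc.2 ⟨hk0, hkd.trans ?_⟩, hmul⟩
        -- d divides the smooth part
        have h1 : d.Coprime (Ro n Y) := by
          refine Nat.coprime_of_dvd ?_
          intro r hr h3 h4
          have h5 := mem_primeFactors_Ro hnz (Nat.mem_primeFactors.2 ⟨hr, h4, (Ro_pos n Y).ne'⟩)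
          have h6 := hdp r (Nat.mem_primeFactors.2 ⟨hr, h3, hd0⟩)
          omega
        have h2 : d ∣ Sm n Y := by
          have h3 : d ∣ Sm n Y * Ro n Y := by rw [Sm_mul_Ro hnz]; exact hd
          exact h1.dvd_of_dvd_mul_right h3
        have h3 : Real.log (Sm n Y : ℝ) < T * Real.log ℓ := by
          by_contra h
          exact n5 ⟨hnI, not_lt.1 h⟩
        have h4 : Sm n Y ≤ ℓ ^ T := by
          have h5 : (Sm n Y : ℝ) < (ℓ : ℝ) ^ T := by
            rw [← Real.log_lt_log_iff (by exact_mod_cast Sm_pos n Y) (by positivity), Real.log_pow]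
            exact h3
          have h6 : Sm n Y < ℓ ^ T := by exact_mod_cast h5
          exact h6.le
        exact (Nat.le_of_dvd (Sm_pos n Y) h2).trans h4
    · -- smooth part
      by_contra h
      exact n8 ⟨j, mem_range.2 hjJ, mem_filter.2 ⟨hnI, hsq, not_le.1 h⟩⟩
    · -- gap
      intro p hp hyp
      rw [← hysucc]
      by_contra h
      exact hj p (mem_primesIn.2 ⟨⟨hyp, not_lt.1 h⟩, Nat.prime_of_mem_primeFactors hp⟩)
        (Nat.dvd_of_mem_primeFactors hp)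
    · -- Omega
      have h1 : 2 ^ n.primeFactors.card < Y := by
        by_contra h
        exact n11 ⟨hnI, not_lt.1 h⟩
      have h2 : n.primeFactorsList.length < n.primeFactors.card + (k₀ + 1) := by
        by_contra h
        exact n12 ⟨hnI, not_lt.1 h⟩
      have h3 : 2 ^ n.primeFactors.card < 2 ^ (2 * L) := by
        refine h1.trans ?_
        rw [hY, mul_comm, pow_mul]
        exact Nat.pow_lt_pow_left hℓL (by norm_num)
      have h4 : n.primeFactors.card < 2 * L := (Nat.pow_lt_pow_iff_right (by norm_num)).1 h3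
      omega
    · -- size
      rw [hZA]
      have h1 : L ^ A + 3 * L ≤ L ^ (A + 1) := by
        have h3 : L ≤ L ^ A := Nat.le_self_pow (by omega) L
        rw [pow_succ]
        have h9 : L ^ A * 6 ≤ L ^ A * L := Nat.mul_le_mul_left _ hL5
        linarith
      have h4 : (L ^ A + 3 * L) ^ 2 ^ s ≤ L ^ B := by
        calc (L ^ A + 3 * L) ^ 2 ^ s ≤ (L ^ (A + 1)) ^ 2 ^ s := Nat.pow_le_pow_left h1 _
          _ = L ^ ((A + 1) * 2 ^ s) := by rw [← pow_mul]
          _ ≤ L ^ B := Nat.pow_le_pow_right (by omega) (by omega)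
      refine h4.trans ?_
      have h5 : x < n * n := by
        by_contra h
        exact n10 ⟨hnI, not_lt.1 h⟩
      have h6 : n < 2 ^ (Nat.log 2 n + 1) := Nat.lt_pow_succ_log_self (by norm_num) n
      have h7 : x < 2 ^ (2 * Nat.log 2 n + 2) := by
        calc x < n * n := h5
          _ ≤ 2 ^ (Nat.log 2 n + 1) * 2 ^ (Nat.log 2 n + 1) := Nat.mul_le_mul h6.le h6.le
          _ = 2 ^ (2 * Nat.log 2 n + 2) := by rw [← pow_add]; ring_nf
      have h8 : Nat.log 2 x < 2 * Nat.log 2 n + 2 := Nat.log_lt_of_lt_pow (by omega) h7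
      have h10 : L ^ B * L ≤ ℓ := by
        rw [← pow_succ]
        exact (Nat.pow_le_pow_right (by omega) (by omega)).trans hLN
      have h11 : 1 ≤ L ^ B := Nat.one_le_pow _ _ (by omega)
      have h12 : L ^ B * 6 ≤ ℓ := (Nat.mul_le_mul_left _ hL5).trans h10
      omega
  have hcard := Finset.card_le_card hsub
  have hun : (F1 ∪ (F2 ∪ (F3 ∪ (F4 ∪ (F5 ∪ (F6 ∪ (F7 ∪ (F8 ∪ (F9 ∪ (F10 ∪ (F11 ∪ F12))))))))))).card ≤
      F1.card + (F2.card + (F3.card + (F4.card + (F5.card + (F6.card + (F7.card + (F8.card +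
        (F9.card + (F10.card + (F11.card + F12.card)))))))))) := by
    refine (card_union_le _ _).trans (Nat.add_le_add_left ?_ _)
    refine (card_union_le _ _).trans (Nat.add_le_add_left ?_ _)
    refine (card_union_le _ _).trans (Nat.add_le_add_left ?_ _)
    refine (card_union_le _ _).trans (Nat.add_le_add_left ?_ _)
    refine (card_union_le _ _).trans (Nat.add_le_add_left ?_ _)
    refine (card_union_le _ _).trans (Nat.add_le_add_left ?_ _)
    refine (card_union_le _ _).trans (Nat.add_le_add_left ?_ _)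
    refine (card_union_le _ _).trans (Nat.add_le_add_left ?_ _)
    refine (card_union_le _ _).trans (Nat.add_le_add_left ?_ _)
    refine (card_union_le _ _).trans (Nat.add_le_add_left ?_ _)
    exact card_union_le _ _
  have hfin : (((Icc 1 x).filter (fun n => ¬ NiceC c n)).card : ℝ) ≤
      F1.card + (F2.card + (F3.card + (F4.card + (F5.card + (F6.card + (F7.card + (F8.card +
        (F9.card + (F10.card + (F11.card + (F12.card : ℝ))))))))))) := by
    exact_mod_cast hcard.trans hun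
  refine hfin.trans ?_
  have h12 : 12 * δ * x ≤ ε * x := mul_le_mul_of_nonneg_right hδε hx0.le
  linarith

/-- Almost all integers have a cut with margin and small `k`. -/
theorem niceCS : SQD.NiceCS := by
  classical
  intro c ε hε
  obtain ⟨x₀, hx₀⟩ := niceCS_of Pool.Agent.Lib.MP_688fd0_co.OSF.H38.mertap
    Pool.Agent.Lib.MP_688fd0_co.OSF.H38.recg Pool.Agent.Lib.MP_688fd0_co.OSF.H38.btsum c ε hε
  refine ⟨x₀, fun x hx => le_trans ?_ (hx₀ x hx)⟩
  have hsub : (Icc 1 x).filter (fun n => ¬ SQD.NiceC c n) ⊆ (Icc 1 x).filter (fun n => ¬ NiceC c n) := by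
    intro n hn
    rw [mem_filter] at hn ⊢
    refine ⟨hn.1, fun h => hn.2 ?_⟩
    obtain ⟨k, m, h1, h2, h3⟩ := h
    exact ⟨k, m, ⟨h1, h2⟩, h3⟩
  exact_mod_cast Finset.card_le_card hsub

end Pool.Agent.Lib.MP_688fd0_co.SQ5.H41
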