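import Pool.Agent.Lib.MP_688fd0_co.SQ5.H12.Sel
import Pool.Agent.Lib.MP_688fd0_co.SQ5.H76.Geo
import Pool.Agent.Lib.MP_688fd0_co.SQ5.H76.Pull

/-!
FT5: the bad levels are sparse (lattice part).

`L` is a lattice with the basis `w_0 = (i0, j0)`, `w_1 = (i1, j1)` and determinant `M`; the column of `(i, j)` is `i - j`, the
level is `i + j`. The levels `y` such that `κ + (y levels)` is at most `W` columns away from a lattice point at the same level.
-/

set_option autoImplicit false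

namespace Pool.Agent.Lib.MP_688fd0_co.SQ5.H41

open Pool.Agent.Lib.MP_688fd0_co.SQ5.H12

theorem sparse_lattice {L : AddSubgroup (ℤ × ℤ)} {M : ℕ} {i0 j0 i1 j1 : ℤ}
    (ker : ∀ i j, (i, j) ∈ L → ∃ x y : ℤ, i = x * i0 + y * i1 ∧ j = x * j0 + y * j1)
    (det : j0 * i1 - i0 * j1 = M) (c0_nonneg : 0 ≤ i0 - j0) (W : ℤ) (N : ℕ) (hN : (N : ℤ) < i0 + j0)
    (hW : 2 * W * (i0 + j0) + N * (i0 - j0) < 10 * M) (κ : ℤ × ℤ) :
    Sparse N {y | ∃ p ∈ L, |(κ.1 - κ.2) - (p.1 - p.2)| ≤ W ∧ κ.1 + κ.2 + y = p.1 + p.2} := by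
  classical
  intro y₀ F hF
  have hex : ∀ y ∈ F, ∃ x x' : ℤ, |(κ.1 - κ.2) - (x * (i0 - j0) + x' * (i1 - j1))| ≤ W ∧
      κ.1 + κ.2 + y = x * (i0 + j0) + x' * (i1 + j1) ∧ y₀ ≤ y ∧ y ≤ y₀ + N := by
    intro y hy
    obtain ⟨⟨p, hp, h1, h2⟩, h3, h4⟩ := hF y hy
    obtain ⟨x, x', h5, h6⟩ := ker p.1 p.2 hp
    refine ⟨x, x', ?_, ?_, h3, h4⟩
    · have e : x * (i0 - j0) + x' * (i1 - j1) = p.1 - p.2 := by rw [h5, h6]; ring
      rw [e]; exact h1
    · rw [h2, h5, h6]; ring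
  choose! x x' hx using hex
  -- `x'` is injective
  have hinj : Set.InjOn x' F := by
    intro y hy z hz h
    obtain ⟨-, h1, h2, h3⟩ := hx y hy
    obtain ⟨-, h4, h5, h6⟩ := hx z hz
    have h7 : y - z = (x y - x z) * (i0 + j0) := by
      rw [h] at h1
      linear_combination h1 - h4
    have h8 : x y - x z = 0 := by
      by_contra hne
      have h9 : 1 ≤ |x y - x z| := Int.one_le_abs hne
      have h10 : |y - z| = |x y - x z| * (i0 + j0) := by
        rw [h7, abs_mul, abs_of_pos (show 0 < i0 + j0 by have := Int.natCast_nonneg N; omega)]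
      have h11 : |y - z| ≤ N := by
        rw [abs_le]; constructor <;> omega
      have h12 : (i0 + j0) ≤ |x y - x z| * (i0 + j0) := by
        have : 0 ≤ i0 + j0 := by have := Int.natCast_nonneg N; omega
        nlinarith
      omega
    rw [h8, zero_mul] at h7
    omega
  -- the values of `x'` are close to each other
  have hclose : ∀ y ∈ F, ∀ z ∈ F, x' y - x' z ≤ 4 := by
    intro y hy z hz
    obtain ⟨h0, h1, h2, h3⟩ := hx y hy
    obtain ⟨h0', h4, h5, h6⟩ := hx z hz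
    rw [abs_le] at h0 h0'
    set c := (x y - x z) * (i0 - j0) + (x' y - x' z) * (i1 - j1) with hc
    have hc1 : c ≤ 2 * W := by rw [hc]; nlinarith [h0.1, h0'.2]
    have hc2 : -(2 * W) ≤ c := by rw [hc]; nlinarith [h0.2, h0'.1]
    have hl : y - z = (x y - x z) * (i0 + j0) + (x' y - x' z) * (i1 + j1) := by
      linear_combination h1 - h4
    have hcr : (x' y - x' z) * (2 * M) = c * (i0 + j0) - (y - z) * (i0 - j0) := by
      rw [hl, hc, ← det]; ring
    have hl0 : 0 < i0 + j0 := by have := Int.natCast_nonneg N; omega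
    have h7 : c * (i0 + j0) ≤ 2 * W * (i0 + j0) := mul_le_mul_of_nonneg_right hc1 hl0.le
    have h8 : -((y - z) * (i0 - j0)) ≤ N * (i0 - j0) := by
      have : -(y - z) ≤ N := by omega
      nlinarith
    by_contra hcon
    have h9 : 5 ≤ x' y - x' z := by omega
    have hM : (0 : ℤ) ≤ M := Int.natCast_nonneg M
    nlinarith
  rcases F.eq_empty_or_nonempty with rfl | hne
  · simp
  · obtain ⟨z, hz, hmin⟩ := F.exists_min_image x' hne
    have hmap : ∀ y ∈ F, x' y ∈ Finset.Icc (x' z) (x' z + 4) := by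
      intro y hy
      rw [Finset.mem_Icc]
      have h1 := hmin y hy
      have h2 := hclose y hy z hz
      constructor <;> omega
    have h1 := Finset.card_le_card_of_injOn x' hmap hinj
    rw [Int.card_Icc] at h1
    omega

theorem sparse_neg {N : ℕ} {Y : Set ℤ} (hY : Sparse N Y) : Sparse N {y | -y ∈ Y} := by
  classical
  intro y₀ F hF
  have h := hY (-(y₀ + N)) (F.image fun y => -y) (by
    intro x hx
    obtain ⟨y, hy, rfl⟩ := Finset.mem_image.1 hx
    obtain ⟨h1, h2, h3⟩ := hF y hy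
    exact ⟨h1, by omega, by omega⟩)
  rwa [Finset.card_image_of_injective _ neg_injective] at h

theorem sparse_mono {N : ℕ} {Y Y' : Set ℤ} (hY : Sparse N Y) (h : Y' ⊆ Y) : Sparse N Y' :=
  fun y₀ F hF => hY y₀ F fun x hx => ⟨h (hF x hx).1, (hF x hx).2⟩

theorem sparse_le {N N' : ℕ} {Y : Set ℤ} (hY : Sparse N Y) (h : N' ≤ N) : Sparse N' Y :=
  fun y₀ F hF => hY y₀ F fun x hx => ⟨(hF x hx).1, (hF x hx).2.1, by have := (hF x hx).2.2; omega⟩

/-- The levels of the elements of the zone `|column| ≤ W` in the class `τ`. -/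
def lv {T : Type*} [AddCommGroup T] (al be : T) (W : ℤ) (τ : T) : Set ℤ :=
  {y | ∃ i j : ℤ, i • al + j • be = τ ∧ |i - j| ≤ W ∧ i + j = y}

/-- **FT5.** The levels of a class in the zone are sparse. -/
theorem sparse_lv {T : Type*} [AddCommGroup T] {al be : T} {M R : ℕ} {dc : ℕ → ℤ} {spc : ℕ → Prop} {G : ℤ}
    (g : H76.Geo (H76.Ltc al be) M R dc spc G) (W : ℤ) (N : ℕ) (hN : (N : ℤ) < g.i0 + g.j0)
    (hW : 2 * W * (g.i0 + g.j0) + N * (g.i0 - g.j0) < 10 * M) (τ : T) : Sparse N (lv al be W τ) := by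
  classical
  by_cases hex : ∃ i j : ℤ, i • al + j • be = τ
  · obtain ⟨i₀, j₀, h₀⟩ := hex
    have h1 := sparse_neg (sparse_lattice g.ker g.det g.c0_nonneg W N hN hW (i₀, j₀))
    refine sparse_mono h1 ?_
    rintro y ⟨i, j, h2, h3, rfl⟩
    refine ⟨(i₀ - i, j₀ - j), ?_, ?_, ?_⟩
    · show (i₀ - i) • al + (j₀ - j) • be = 0
      rw [sub_smul, sub_smul]
      have : i₀ • al - i • al + (j₀ • be - j • be) = (i₀ • al + j₀ • be) - (i • al + j • be) := by abel
      rw [this, h₀, h2, sub_self]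
    · have e : i₀ - j₀ - (i₀ - i - (j₀ - j)) = i - j := by ring
      show |i₀ - j₀ - (i₀ - i - (j₀ - j))| ≤ W
      rw [e]; exact h3
    · show i₀ + j₀ + -(i + j) = i₀ - i + (j₀ - j)
      ring
  · intro y₀ F hF
    have : F = ∅ := by
      rw [Finset.eq_empty_iff_forall_notMem]
      intro y hy
      obtain ⟨⟨i, j, h2, -, -⟩, -⟩ := hF y hy
      exact hex ⟨i, j, h2⟩
    rw [this]; simp

theorem Mpos {L : AddSubgroup (ℤ × ℤ)} {M R : ℕ} {dc : ℕ → ℤ} {spc : ℕ → Prop} {G : ℤ}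
    (g : H76.Geo L M R dc spc G) : (0 : ℤ) < M := by
  have h1 := g.wide
  have h2 := g.l0_pos
  have h3 := g.R3
  have h4 := g.X0
  have h5 : 0 ≤ ∑ j ∈ Finset.range (R - 1), dc j := Finset.sum_nonneg fun j hj => by
    have h6 : j + 1 < R := by have := Finset.mem_range.1 hj; omega
    rcases g.kind j h6 with h | h
    · linarith [h.2.2.1]
    · linarith [h.2.2.2.2.1]
  have h6 : (0 : ℤ) < ∑ j ∈ Finset.range (R - 1), dc j + 3 * R + 10 + 2 * g.X := by
    have : (0 : ℤ) ≤ R := Int.natCast_nonneg R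
    linarith
  have h7 := mul_pos h2 h6
  linarith

/-- The levels of the points of a class of `ℤ² / L` at most `Wd` columns away from the column `0`. -/
theorem sparse_levels {L : AddSubgroup (ℤ × ℤ)} {M R : ℕ} {dc : ℕ → ℤ} {spc : ℕ → Prop} {G : ℤ}
    (g : H76.Geo L M R dc spc G) (Wd : ℤ) (hWd : (g.i0 + g.j0) * Wd ≤ 2 * M)
    (hc : (g.i0 + g.j0) * (g.i0 - g.j0) ≤ 16 * M) (d : ℤ × ℤ) :
    Sparse ((g.i0 + g.j0) / 4).toNat
      {y | ∃ x ∈ L, |(d + x).1 - (d + x).2| ≤ Wd ∧ y = -((d + x).1 + (d + x).2)} := by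
  have hM := Mpos g
  have hl0 := g.l0_pos
  have hc0 := g.c0_nonneg
  have h1 : (((g.i0 + g.j0) / 4).toNat : ℤ) = (g.i0 + g.j0) / 4 := Int.toNat_of_nonneg (by omega)
  have h2 : (g.i0 + g.j0) / 4 < g.i0 + g.j0 := by omega
  have h3 : 4 * ((g.i0 + g.j0) / 4 * (g.i0 - g.j0)) ≤ (g.i0 + g.j0) * (g.i0 - g.j0) := by
    have : (g.i0 + g.j0) / 4 * 4 ≤ g.i0 + g.j0 := Int.ediv_mul_le _ (by norm_num)
    nlinarith
  have h4 := sparse_lattice g.ker g.det hc0 Wd ((g.i0 + g.j0) / 4).toNat (by rw [h1]; exact h2)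
    (by rw [h1]; nlinarith) d
  refine sparse_mono h4 ?_
  rintro y ⟨x, hx, h5, rfl⟩
  refine ⟨-x, L.neg_mem hx, ?_, ?_⟩
  · have e : d.1 - d.2 - ((-x).1 - (-x).2) = (d + x).1 - (d + x).2 := by
      simp only [Prod.fst_neg, Prod.snd_neg, Prod.fst_add, Prod.snd_add]; ring
    rw [e]; exact h5
  · simp only [Prod.fst_neg, Prod.snd_neg, Prod.fst_add, Prod.snd_add]; ring

/-- The same for the classes in `T`, `L` = the relations of `al`, `be`. -/
theorem sparse_class {T : Type*} [AddCommGroup T] {al be : T} {M R : ℕ} {dc : ℕ → ℤ} {spc : ℕ → Prop} {G : ℤ}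
    (g : H76.Geo (H76.Ltc al be) M R dc spc G) (Wd : ℤ) (hWd : (g.i0 + g.j0) * Wd ≤ 2 * M)
    (hc : (g.i0 + g.j0) * (g.i0 - g.j0) ≤ 16 * M) (τ : T) :
    Sparse ((g.i0 + g.j0) / 4).toNat {y | ∃ i j : ℤ, i • al + j • be = τ ∧ |i - j| ≤ Wd ∧ i + j = -y} := by
  have hM := Mpos g
  have hl0 := g.l0_pos
  have hc0 := g.c0_nonneg
  have h1 : (((g.i0 + g.j0) / 4).toNat : ℤ) = (g.i0 + g.j0) / 4 := Int.toNat_of_nonneg (by omega)
  have h2 : (g.i0 + g.j0) / 4 < g.i0 + g.j0 := by omega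
  have h3 : 4 * ((g.i0 + g.j0) / 4 * (g.i0 - g.j0)) ≤ (g.i0 + g.j0) * (g.i0 - g.j0) := by
    have : (g.i0 + g.j0) / 4 * 4 ≤ g.i0 + g.j0 := Int.ediv_mul_le _ (by norm_num)
    nlinarith
  exact sparse_neg (sparse_lv g Wd ((g.i0 + g.j0) / 4).toNat (by rw [h1]; exact h2)
    (by rw [h1]; nlinarith) τ)

end Pool.Agent.Lib.MP_688fd0_co.SQ5.H41
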